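import Pool.Agent.K3T.Piece

/-!
Basic facts on degrees in indecomposable sets, and on cliques of vertices of small degree.
-/

open Finset

namespace Pool.Agent.TwoDens.K3T

open Pool.Agent.TwoDens Pool.Agent.TwoDens.TS Pool.Agent.TwoDens.K3K

variable {V : Type*} [LinearOrder V] {G : SimpleGraph V}

/-- a closed neighbourhood that is a clique is everything -/
theorem clq_nbr {A : Finset V} (hA : Ind G A) {x : V} (hx : x ∈ A)
    (hc : Clq G (insert x (nA G A x))) : insert x (nA G A x) = A := by
  by_contra hne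
  have hB : insert x (nA G A x) ⊆ A := by
    intro y hy
    rcases mem_insert.1 hy with rfl | hy
    · exact hx
    · exact nA_sub hy
  have h1 := hA.2 _ hB (insert_nonempty _ _) hne
  have h2 := al_clq hc
  obtain ⟨I, hI, hIi, hIc⟩ := exists_al (G := G) (A \ insert x (nA G A x))
  have hxI : x ∉ I := fun h => (mem_sdiff.1 (hI h)).2 (mem_insert_self _ _)
  have h3 : ∀ y ∈ I, ¬ G.Adj x y := by
    intro y hy hadj
    have h4 := mem_sdiff.1 (hI hy)
    exact h4.2 (mem_insert_of_mem (mem_nA.2 ⟨h4.1, hadj⟩))
  have h5 := le_al (G := G) (X := A) (I := insert x I) (by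
    intro y hy
    rcases mem_insert.1 hy with rfl | hy
    · exact hx
    · exact (mem_sdiff.1 (hI hy)).1) (indep_insert hIi h3)
  rw [card_insert_of_notMem hxI] at h5
  omega

theorem self_notMem_nA {A : Finset V} {x : V} : x ∉ nA G A x := fun h => (mem_nA.1 h).2.ne rfl

theorem two_le_dg {A : Finset V} (hA : Ind G A) (h3 : 3 ≤ A.card) {x : V} (hx : x ∈ A) :
    2 ≤ dg G A x := by
  by_contra hcon
  push Not at hcon
  have h1 : (nA G A x).card ≤ 1 := by
    unfold dg at hcon
    omega
  have h2 : Clq G (insert x (nA G A x)) := by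
    intro a ha b hb hab
    rcases mem_insert.1 ha with rfl | ha <;> rcases mem_insert.1 hb with rfl | hb
    · exact absurd rfl hab
    · exact (mem_nA.1 hb).2
    · exact (mem_nA.1 ha).2.symm
    · exact absurd (card_le_one.1 h1 a ha b hb) hab
  have h4 := clq_nbr hA hx h2
  have h5 : A.card ≤ 2 := by
    rw [← h4]
    have := card_insert_le x (nA G A x)
    omega
  omega

theorem nonadj {A : Finset V} (hA : Ind G A) (h4 : 4 ≤ A.card) {x u w : V} (hx : x ∈ A)
    (hN : nA G A x = {u, w}) : ¬ G.Adj u w := by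
  intro hadj
  have h2 : Clq G (insert x (nA G A x)) := by
    intro a ha b hb hab
    rcases mem_insert.1 ha with rfl | ha <;> rcases mem_insert.1 hb with rfl | hb
    · exact absurd rfl hab
    · exact (mem_nA.1 hb).2
    · exact (mem_nA.1 ha).2.symm
    · rw [hN, mem_insert, mem_singleton] at ha hb
      rcases ha with rfl | rfl <;> rcases hb with rfl | rfl
      · exact absurd rfl hab
      · exact hadj
      · exact hadj.symm
      · exact absurd rfl hab
  have h4' := clq_nbr hA hx h2
  have h5 : A.card ≤ 3 := by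
    rw [← h4', hN]
    have := card_insert_le x ({u, w} : Finset V)
    have := card_insert_le u ({w} : Finset V)
    rw [card_singleton] at this
    omega
  omega

/-- a nonempty proper subset has an end -/
theorem exists_end {A B : Finset V} (hA : Ind G A) (hB : B ⊆ A) (hBn : B.Nonempty)
    (hne : B ≠ A) : ∃ x ∈ B, dg G B x < dg G A x := by
  by_contra hcon
  push Not at hcon
  have h1 := ends_tr hA hB hBn hne
  have h2 : ends G A B = ∅ := by
    rw [Finset.eq_empty_iff_forall_notMem]
    intro x hx
    have h3 := mem_ends.1 hx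
    have h4 := hcon x h3.1
    omega
  rw [h2, sdiff_empty] at h1
  omega

/-- degree after deletion of a vertex -/
theorem dg_erase_adj {A : Finset V} {v x : V} (hv : v ∈ A) (h : G.Adj x v) :
    dg G A x = dg G (A \ {v}) x + 1 := by
  unfold dg
  have h1 : nA G A x = insert v (nA G (A \ {v}) x) := by
    ext y
    rw [mem_insert, mem_nA, mem_nA, mem_sdiff, mem_singleton]
    constructor
    · rintro ⟨h2, h3⟩
      by_cases h4 : y = v
      · exact Or.inl h4
      · exact Or.inr ⟨⟨h2, h4⟩, h3⟩
    · rintro (rfl | h2)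
      · exact ⟨hv, h⟩
      · exact ⟨h2.1.1, h2.2⟩
  rw [h1, card_insert_of_notMem]
  intro h2
  exact (mem_sdiff.1 (nA_sub h2)).2 (mem_singleton_self v)

theorem dg_erase_nonadj {A : Finset V} {v x : V} (h : ¬ G.Adj x v) :
    dg G A x = dg G (A \ {v}) x := by
  unfold dg
  congr 1
  ext y
  rw [mem_nA, mem_nA, mem_sdiff, mem_singleton]
  constructor
  · rintro ⟨h2, h3⟩
    refine ⟨⟨h2, ?_⟩, h3⟩
    rintro rfl
    exact h h3
  · rintro ⟨h2, h3⟩
    exact ⟨h2.1, h3⟩

/-- a vertex of a part with a neighbour outside the part has larger degree in the whole set -/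
theorem dg_lt {A B : Finset V} (hB : B ⊆ A) {x y : V} (hy : y ∈ A) (hyB : y ∉ B)
    (h : G.Adj x y) : dg G B x < dg G A x := by
  unfold dg
  refine card_lt_card ?_
  rw [Finset.ssubset_iff_of_subset (nA_mono hB x)]
  exact ⟨y, mem_nA.2 ⟨hy, h⟩, fun h1 => hyB (nA_sub h1)⟩

theorem Good.mem_T {A B T : Finset V} (h : Good G A B T) {x y : V} (hx : x ∈ B) (hy : y ∈ A)
    (hyB : y ∉ B) (hadj : G.Adj x y) : x ∈ T := by
  by_contra hxT
  have h1 := h.outT x hx hxT
  have h2 := dg_lt h.sub hy hyB hadj
  omega

/-- a vertex of degree 3 of a good part with a neighbour outside has its other neighbours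
inside -/
theorem Good.nbr {A B T : Finset V} (h : Good G A B T) {x y z : V} (hx : x ∈ B)
    (hd : dg G A x = 3) (hy : y ∈ A) (hyB : y ∉ B) (hadj : G.Adj x y) (hz : z ∈ A)
    (hzy : z ≠ y) (hxz : G.Adj x z) : z ∈ B := by
  by_contra hzB
  have h1 := two_le_dg h.tight.ind h.tight.three hx
  have h2 : insert y (insert z (nA G B x)) ⊆ nA G A x := by
    intro t ht
    rcases mem_insert.1 ht with rfl | ht
    · exact mem_nA.2 ⟨hy, hadj⟩
    · rcases mem_insert.1 ht with rfl | ht
      · exact mem_nA.2 ⟨hz, hxz⟩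
      · exact nA_mono h.sub x ht
  have h3 := card_le_card h2
  rw [card_insert_of_notMem, card_insert_of_notMem] at h3
  · unfold dg at h1 hd
    omega
  · exact fun h4 => hzB (nA_sub h4)
  · intro h4
    rcases mem_insert.1 h4 with h5 | h5
    · exact hzy h5.symm
    · exact hyB (nA_sub h5)

theorem ee_ge {A : Finset V} {k : ℕ} (h : ∀ x ∈ A, k ≤ dg G A x) : k * A.card ≤ ee G A := by
  unfold ee
  rw [mul_comm, ← smul_eq_mul, ← sum_const]
  exact sum_le_sum h

theorem ee_eq_mul {A : Finset V} {k : ℕ} (h : ∀ x ∈ A, dg G A x = k) :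
    ee G A = k * A.card := by
  unfold ee
  rw [sum_congr rfl h, sum_const, smul_eq_mul, mul_comm]

/-- independence number 1 means complete -/
theorem adj_of_al_one {A : Finset V} (h : al G A ≤ 1) {x y : V} (hx : x ∈ A) (hy : y ∈ A)
    (hxy : x ≠ y) : G.Adj x y := by
  by_contra hadj
  have h1 : G.IsIndepSet (({x, y} : Finset V) : Set V) := by
    intro a ha b hb hab
    rw [mem_coe, mem_insert, mem_singleton] at ha hb
    rcases ha with rfl | rfl <;> rcases hb with rfl | rfl
    · exact absurd rfl hab
    · exact hadj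
    · exact fun h2 => hadj h2.symm
    · exact absurd rfl hab
  have h2 := le_al (G := G) (X := A) (I := {x, y}) (by
    intro t ht
    rw [mem_insert, mem_singleton] at ht
    rcases ht with rfl | rfl
    · exact hx
    · exact hy) h1
  rw [card_pair hxy] at h2
  omega

theorem dg_of_al_one {A : Finset V} (h : al G A ≤ 1) {x : V} (hx : x ∈ A) :
    dg G A x + 1 = A.card := by
  unfold dg
  have h1 : insert x (nA G A x) = A := by
    ext y
    rw [mem_insert, mem_nA]
    constructor
    · rintro (rfl | h2)
      · exact hx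
      · exact h2.1
    · intro hy
      by_cases h2 : y = x
      · exact Or.inl h2
      · exact Or.inr ⟨hy, adj_of_al_one h hx hy (Ne.symm h2)⟩
  calc (nA G A x).card + 1 = (insert x (nA G A x)).card := by
        rw [card_insert_of_notMem self_notMem_nA]
    _ = A.card := by rw [h1]

/-- two triangles of vertices of degree 3 that meet have two common vertices -/
theorem St.inter {A S T : Finset V} (hS : St G A 3 S) (hT : St G A 3 T)
    (h : (S ∩ T).Nonempty) : 2 ≤ (S ∩ T).card := by
  obtain ⟨p, hp⟩ := h
  rw [mem_inter] at hp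
  have h1 : S.erase p ∪ T.erase p ⊆ nA G A p := by
    intro q hq
    rcases mem_union.1 hq with hq | hq
    · rw [mem_erase] at hq
      exact mem_nA.2 ⟨hS.sub hq.2, hS.clq p hp.1 q hq.2 (Ne.symm hq.1)⟩
    · rw [mem_erase] at hq
      exact mem_nA.2 ⟨hT.sub hq.2, hT.clq p hp.2 q hq.2 (Ne.symm hq.1)⟩
  have h2 := card_le_card h1
  have h3 := hS.deg p hp.1
  unfold dg at h3
  have h4 := card_union_add_card_inter (S.erase p) (T.erase p)
  have h5 := card_erase_of_mem hp.1
  have h6 := card_erase_of_mem hp.2
  have h7 := hS.card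
  have h8 := hT.card
  have h9 : insert p (S.erase p ∩ T.erase p) ⊆ S ∩ T := by
    intro q hq
    rcases mem_insert.1 hq with rfl | hq
    · exact mem_inter.2 hp
    · rw [mem_inter, mem_erase, mem_erase] at hq
      exact mem_inter.2 ⟨hq.1.2, hq.2.2⟩
  have h10 := card_le_card h9
  rw [card_insert_of_notMem (by
    intro h11
    rw [mem_inter, mem_erase] at h11
    exact h11.1.1 rfl)] at h10
  omega

end Pool.Agent.TwoDens.K3T
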