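import Pool.Agent.K3T.Defs

/-!
Contraction of a vertex of degree two in a tight set.
-/

open Finset

namespace Pool.Agent.TwoDens.K3T

open Pool.Agent.TwoDens Pool.Agent.TwoDens.RK Pool.Agent.TwoDens.DD Pool.Agent.TwoDens.TS
open Pool.Agent.TwoDens.K3K

variable {V : Type*} [LinearOrder V] {G : SimpleGraph V} {A : Finset V} {x u w : V}

/-- the vertex `w` is merged into `u` -/
def ctr (G : SimpleGraph V) (u w : V) : SimpleGraph V where
  Adj p q := p ≠ q ∧ (G.Adj p q ∨ (p = u ∧ G.Adj w q) ∨ (q = u ∧ G.Adj w p))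
  symm := ⟨by
    rintro p q ⟨h1, h2⟩
    refine ⟨h1.symm, ?_⟩
    rcases h2 with h | h | h
    · exact Or.inl h.symm
    · exact Or.inr (Or.inr h)
    · exact Or.inr (Or.inl h)⟩
  loopless := ⟨fun p h => h.1 rfl⟩

omit [LinearOrder V] in
theorem ctr_adj_iff {p q : V} (hp : p ≠ u) (hq : q ≠ u) :
    (ctr G u w).Adj p q ↔ G.Adj p q := by
  constructor
  · rintro ⟨h1, h | h | h⟩
    · exact h
    · exact absurd h.1 hp
    · exact absurd h.1 hq
  · intro h
    exact ⟨h.ne, Or.inl h⟩

omit [LinearOrder V] in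
theorem ctr_adj_of {p q : V} (h : G.Adj p q) : (ctr G u w).Adj p q := ⟨h.ne, Or.inl h⟩

/-- the neighbours of `x` in `A` -/
theorem mem_of_nbr (hN : nA G A x = {u, w}) {z : V} (hz : z ∈ A) (h : G.Adj x z) :
    z = u ∨ z = w := by
  have h1 : z ∈ nA G A x := mem_nA.2 ⟨hz, h⟩
  rw [hN, mem_insert, mem_singleton] at h1
  exact h1

theorem nbr_u (hN : nA G A x = {u, w}) : u ∈ A ∧ G.Adj x u := by
  have h1 : u ∈ nA G A x := by
    rw [hN]
    exact mem_insert_self _ _
  exact mem_nA.1 h1

theorem nbr_w (hN : nA G A x = {u, w}) : w ∈ A ∧ G.Adj x w := by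
  have h1 : w ∈ nA G A x := by
    rw [hN]
    exact mem_insert_of_mem (mem_singleton_self _)
  exact mem_nA.1 h1

theorem not_adj_uw (hA : Ind G A) (h4 : 4 ≤ A.card) (hx : x ∈ A) (hN : nA G A x = {u, w}) :
    ¬ G.Adj u w := by
  intro huw
  have hu := nbr_u hN
  have hw := nbr_w hN
  have hB : ({x, u, w} : Finset V) ⊆ A := by
    intro z hz
    rw [mem_insert, mem_insert, mem_singleton] at hz
    rcases hz with rfl | rfl | rfl
    · exact hx
    · exact hu.1
    · exact hw.1
  have h1 := hA.2 {x, u, w} hB ⟨x, mem_insert_self _ _⟩ (by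
    intro h
    have h2 := card_le_three (a := x) (b := u) (c := w)
    rw [h] at h2
    omega)
  have h2 : al G ({x, u, w} : Finset V) ≤ 1 := by
    refine al_clq ?_
    intro a ha b hb hab
    rw [mem_insert, mem_insert, mem_singleton] at ha hb
    rcases ha with rfl | rfl | rfl <;> rcases hb with rfl | rfl | rfl
    · exact absurd rfl hab
    · exact hu.2
    · exact hw.2
    · exact hu.2.symm
    · exact absurd rfl hab
    · exact huw
    · exact hw.2.symm
    · exact huw.symm
    · exact absurd rfl hab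
  have h3 := al_closed (G := G) (Y := A) (S := {x, u, w}) (J := {x})
    (singleton_subset_iff.2 hx) (singleton_subset_iff.2 (mem_insert_self _ _))
    (indep_singleton x) (by
      intro z hz y hy hzy
      rw [mem_singleton] at hz
      rw [hz] at hzy
      rcases mem_of_nbr hN hy hzy with rfl | rfl
      · simp
      · simp)
  rw [card_singleton] at h3
  omega

/-- `H` and `G` agree off `u` -/
theorem al_ctr_of_notMem {B : Finset V} (hu : u ∉ B) : al (ctr G u w) B = al G B := by
  refine le_antisymm (al_le fun I hI hi => le_al hI ?_) (al_le fun I hI hi => le_al hI ?_)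
  · intro p hp q hq hpq h
    exact hi hp hq hpq (ctr_adj_of h)
  · intro p hp q hq hpq h
    have h1 : p ≠ u := fun h2 => hu (h2 ▸ hI (mem_coe.1 hp))
    have h2 : q ≠ u := fun h2 => hu (h2 ▸ hI (mem_coe.1 hq))
    exact hi hp hq hpq ((ctr_adj_iff h1 h2).1 h)

theorem al_up (hN : nA G A x = {u, w}) (B : Finset V) :
    al G B ≤ al (ctr G u w) (B \ {x, w}) + 1 := by
  refine al_le fun S hS hi => ?_
  have hu := nbr_u hN
  have hw := nbr_w hN
  by_cases hxS : x ∈ S
  · have h1 : u ∉ S := fun h => hi (mem_coe.2 hxS) (mem_coe.2 h) hu.2.ne hu.2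
    have h2 : w ∉ S := fun h => hi (mem_coe.2 hxS) (mem_coe.2 h) hw.2.ne hw.2
    have h3 : S.erase x ⊆ B \ {x, w} := by
      intro z hz
      rw [mem_erase] at hz
      rw [mem_sdiff, mem_insert, mem_singleton]
      refine ⟨hS hz.2, ?_⟩
      rintro (h | h)
      · exact hz.1 h
      · exact h2 (h ▸ hz.2)
    have h4 : (ctr G u w).IsIndepSet ((S.erase x : Finset V) : Set V) := by
      intro p hp q hq hpq h
      rw [mem_coe, mem_erase] at hp hq
      have h5 : p ≠ u := fun h6 => h1 (h6 ▸ hp.2)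
      have h6 : q ≠ u := fun h6 => h1 (h6 ▸ hq.2)
      exact hi (mem_coe.2 hp.2) (mem_coe.2 hq.2) hpq ((ctr_adj_iff h5 h6).1 h)
    have h5 := le_al h3 h4
    have h6 := card_erase_add_one hxS
    omega
  · by_cases huw : u ∈ S ∧ w ∈ S
    · have h3 : S.erase w ⊆ B \ {x, w} := by
        intro z hz
        rw [mem_erase] at hz
        rw [mem_sdiff, mem_insert, mem_singleton]
        refine ⟨hS hz.2, ?_⟩
        rintro (h | h)
        · exact hxS (h ▸ hz.2)
        · exact hz.1 h
      have h4 : (ctr G u w).IsIndepSet ((S.erase w : Finset V) : Set V) := by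
        intro p hp q hq hpq h
        rw [mem_coe, mem_erase] at hp hq
        rcases h with ⟨_, h | h | h⟩
        · exact hi (mem_coe.2 hp.2) (mem_coe.2 hq.2) hpq h
        · exact hi (mem_coe.2 huw.2) (mem_coe.2 hq.2) hq.1.symm h.2
        · exact hi (mem_coe.2 huw.2) (mem_coe.2 hp.2) hp.1.symm h.2
      have h5 := le_al h3 h4
      have h6 := card_erase_add_one huw.2
      omega
    · have h3 : S \ {u, w} ⊆ B \ {x, w} := by
        intro z hz
        rw [mem_sdiff, mem_insert, mem_singleton] at hz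
        rw [mem_sdiff, mem_insert, mem_singleton]
        refine ⟨hS hz.1, ?_⟩
        rintro (h | h)
        · exact hxS (h ▸ hz.1)
        · exact hz.2 (Or.inr h)
      have h4 : (ctr G u w).IsIndepSet ((S \ {u, w} : Finset V) : Set V) := by
        intro p hp q hq hpq h
        rw [mem_coe, mem_sdiff, mem_insert, mem_singleton] at hp hq
        have h5 : p ≠ u := fun h6 => hp.2 (Or.inl h6)
        have h6 : q ≠ u := fun h6 => hq.2 (Or.inl h6)
        exact hi (mem_coe.2 hp.1) (mem_coe.2 hq.1) hpq ((ctr_adj_iff h5 h6).1 h)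
      have h5 := le_al h3 h4
      have h6 : (S ∩ {u, w}).card ≤ 1 := by
        rw [card_le_one]
        intro p hp q hq
        rw [mem_inter, mem_insert, mem_singleton] at hp hq
        rcases hp with ⟨hp, rfl | rfl⟩ <;> rcases hq with ⟨hq, rfl | rfl⟩
        · rfl
        · exact absurd ⟨hp, hq⟩ huw
        · exact absurd ⟨hq, hp⟩ huw
        · rfl
      have h7 := card_sdiff_add_card_inter S {u, w}
      omega

theorem al_low (hA : Ind G A) (h4 : 4 ≤ A.card) (hx : x ∈ A) (hN : nA G A x = {u, w}) :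
    al (ctr G u w) (A \ {x, w}) + 1 ≤ al G A := by
  have hu := nbr_u hN
  have hw := nbr_w hN
  have hno := not_adj_uw hA h4 hx hN
  obtain ⟨S, hS, hi, hc⟩ := exists_al (G := ctr G u w) (A \ {x, w})
  have hSA : S ⊆ A := hS.trans sdiff_subset
  have hxS : x ∉ S := fun h => by
    have h1 := hS h
    simp at h1
  have hwS : w ∉ S := fun h => by
    have h1 := hS h
    simp at h1
  have hiG : G.IsIndepSet (S : Set V) := by
    intro p hp q hq hpq h
    exact hi hp hq hpq (ctr_adj_of h)
  rw [← hc]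
  by_cases huS : u ∈ S
  · have h1 : G.IsIndepSet ((insert w S : Finset V) : Set V) := by
      refine indep_insert hiG ?_
      intro y hy h
      by_cases h2 : y = u
      · rw [h2] at h
        exact hno h.symm
      · exact hi (mem_coe.2 huS) (mem_coe.2 hy) (fun h3 => h2 h3.symm)
          ⟨fun h3 => h2 h3.symm, Or.inr (Or.inl ⟨rfl, h⟩)⟩
    have h2 := le_al (X := A) (insert_subset hw.1 hSA) h1
    rw [card_insert_of_notMem hwS] at h2
    exact h2
  · have h1 : G.IsIndepSet ((insert x S : Finset V) : Set V) := by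
      refine indep_insert hiG ?_
      intro y hy h
      rcases mem_of_nbr hN (hSA hy) h with h2 | h2
      · exact huS (h2 ▸ hy)
      · exact hwS (h2 ▸ hy)
    have h2 := le_al (X := A) (insert_subset hx hSA) h1
    rw [card_insert_of_notMem hxS] at h2
    exact h2

theorem card_ctr (hx : x ∈ A) (hN : nA G A x = {u, w}) : (A \ {x, w}).card + 2 = A.card := by
  have hw := nbr_w hN
  have h1 : ({x, w} : Finset V) ⊆ A := by
    intro z hz
    rw [mem_insert, mem_singleton] at hz
    rcases hz with rfl | rfl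
    · exact hx
    · exact hw.1
  have h2 := card_sdiff_add_card_eq_card h1
  rw [card_pair hw.2.ne] at h2
  exact h2

theorem ind_ctr (hA : Ind G A) (h4 : 4 ≤ A.card) (hx : x ∈ A) (hN : nA G A x = {u, w})
    (huw : u ≠ w) : Ind (ctr G u w) (A \ {x, w}) := by
  have hu := nbr_u hN
  have hw := nbr_w hN
  have hlow := al_low hA h4 hx hN
  have hcard := card_ctr hx hN
  -- the case where the part contains `u`
  have key : ∀ B ⊆ A \ {x, w}, u ∈ B → B ≠ A \ {x, w} →
      al (ctr G u w) (A \ {x, w}) + 1 ≤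
        al (ctr G u w) B + al (ctr G u w) ((A \ {x, w}) \ B) := by
    intro B hB huB hne
    have hxB : x ∉ B := fun h => by
      have h1 := hB h
      simp at h1
    have hwB : w ∉ B := fun h => by
      have h1 := hB h
      simp at h1
    have h1 : B ∪ {x, w} ⊆ A := by
      intro z hz
      rw [mem_union, mem_insert, mem_singleton] at hz
      rcases hz with hz | rfl | rfl
      · exact (mem_sdiff.1 (hB hz)).1
      · exact hx
      · exact hw.1
    have h2 : A \ (B ∪ {x, w}) = (A \ {x, w}) \ B := by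
      ext z
      simp only [mem_sdiff, mem_union]
      tauto
    have h3 : B ∪ {x, w} ≠ A := by
      intro h
      refine hne (Subset.antisymm hB ?_)
      intro z hz
      rw [mem_sdiff] at hz
      have h5 : z ∈ B ∪ {x, w} := h ▸ hz.1
      rw [mem_union] at h5
      exact h5.resolve_right hz.2
    have h5 := hA.2 (B ∪ {x, w}) h1 ⟨x, by simp⟩ h3
    rw [h2] at h5
    have h6 := al_up hN (B ∪ {x, w})
    have h7 : (B ∪ {x, w}) \ {x, w} = B := by
      ext z
      rw [mem_sdiff, mem_union]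
      constructor
      · rintro ⟨h8, h9⟩
        exact h8.resolve_right h9
      · intro h8
        refine ⟨Or.inl h8, ?_⟩
        rw [mem_insert, mem_singleton]
        rintro (h9 | h9)
        · exact hxB (h9 ▸ h8)
        · exact hwB (h9 ▸ h8)
    rw [h7] at h6
    have h8 : al (ctr G u w) ((A \ {x, w}) \ B) = al G ((A \ {x, w}) \ B) := by
      refine al_ctr_of_notMem ?_
      intro h9
      exact (mem_sdiff.1 h9).2 huB
    omega
  refine ⟨?_, ?_⟩
  · rw [← card_pos]
    omega
  · intro B hB hBn hBne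
    by_cases huB : u ∈ B
    · exact key B hB huB hBne
    · by_cases hu' : u ∈ A \ {x, w}
      · have h1 := key ((A \ {x, w}) \ B) sdiff_subset (mem_sdiff.2 ⟨hu', huB⟩) (by
          intro h
          obtain ⟨z, hz⟩ := hBn
          have h2 : z ∈ (A \ {x, w}) \ B := by
            rw [h]
            exact hB hz
          exact (mem_sdiff.1 h2).2 hz)
        rw [_root_.sdiff_sdiff_eq_self hB] at h1
        omega
      · exfalso
        apply hu'
        rw [mem_sdiff, mem_insert, mem_singleton]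
        refine ⟨hu.1, ?_⟩
        rintro (h | h)
        · exact hu.2.ne h.symm
        · exact huw h

/-- the common neighbours of `u` and `w` other than `x` -/
noncomputable def com (G : SimpleGraph V) (A : Finset V) (x u w : V) : Finset V :=
  (nA G A u ∩ nA G A w).erase x

theorem mem_com {q : V} : q ∈ com G A x u w ↔ q ≠ x ∧ q ∈ A ∧ G.Adj q u ∧ G.Adj q w := by
  unfold com
  rw [mem_erase, mem_inter, mem_nA, mem_nA]
  constructor
  · rintro ⟨h0, h1, h2⟩
    exact ⟨h0, h1.1, h1.2.symm, h2.2.symm⟩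
  · rintro ⟨h0, h1, h2, h3⟩
    exact ⟨h0, ⟨h1, h2.symm⟩, h1, h3.symm⟩

theorem mem_sd {q : V} : q ∈ A \ {x, w} ↔ q ∈ A ∧ q ≠ x ∧ q ≠ w := by
  rw [mem_sdiff, mem_insert, mem_singleton, not_or]

theorem dg_other (hN : nA G A x = {u, w}) (huw : u ≠ w) {q : V}
    (hq : q ∈ A \ {x, w}) (hqu : q ≠ u) : dg (ctr G u w) (A \ {x, w}) q +
      (if q ∈ com G A x u w then 1 else 0) = dg G A q := by
  have hu := nbr_u hN
  have hw := nbr_w hN
  obtain ⟨hq1, hqx', hqw⟩ := mem_sd.1 hq
  have hqx : ¬ G.Adj q x := by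
    intro h
    rcases mem_of_nbr hN hq1 h.symm with h1 | h1
    · exact hqu h1
    · exact hqw h1
  have huA : u ∈ A \ {x, w} := mem_sd.2 ⟨hu.1, hu.2.ne.symm, huw⟩
  -- neighbours other than `u` and `w`
  have hother : ∀ z, z ≠ u → (z ∈ nA (ctr G u w) (A \ {x, w}) q ↔ z ∈ (nA G A q).erase w) := by
    intro z hz
    rw [mem_nA, mem_erase, mem_nA, ctr_adj_iff hqu hz, mem_sd]
    constructor
    · rintro ⟨⟨h1, h2, h3⟩, h4⟩
      exact ⟨h3, h1, h4⟩
    · rintro ⟨h1, h2, h3⟩
      exact ⟨⟨h2, fun h4 => hqx (h4 ▸ h3), h1⟩, h3⟩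
  have hatu : u ∈ nA (ctr G u w) (A \ {x, w}) q ↔ G.Adj q u ∨ G.Adj q w := by
    rw [mem_nA]
    constructor
    · rintro ⟨_, _, h | h | h⟩
      · exact Or.inl h
      · exact absurd h.1 hqu
      · exact Or.inr h.2.symm
    · rintro (h | h)
      · exact ⟨huA, ctr_adj_of h⟩
      · exact ⟨huA, hqu, Or.inr (Or.inr ⟨rfl, h.symm⟩)⟩
  unfold dg
  by_cases h1 : G.Adj q w
  · have hwN : w ∈ nA G A q := mem_nA.2 ⟨hw.1, h1⟩
    have hce := card_erase_add_one hwN
    by_cases h2 : G.Adj q u
    · rw [if_pos (mem_com.2 ⟨hqx', hq1, h2, h1⟩)]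
      have h3 : nA (ctr G u w) (A \ {x, w}) q = (nA G A q).erase w := by
        ext z
        by_cases hz : z = u
        · rw [hz, hatu, mem_erase, mem_nA]
          exact ⟨fun _ => ⟨huw, hu.1, h2⟩, fun _ => Or.inl h2⟩
        · exact hother z hz
      rw [h3]
      exact hce
    · rw [if_neg (fun h => h2 (mem_com.1 h).2.2.1)]
      have h3 : nA (ctr G u w) (A \ {x, w}) q = insert u ((nA G A q).erase w) := by
        ext z
        rw [mem_insert]
        by_cases hz : z = u
        · rw [hz, hatu]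
          exact ⟨fun _ => Or.inl rfl, fun _ => Or.inr h1⟩
        · rw [hother z hz]
          exact ⟨fun h => Or.inr h, fun h => h.resolve_left hz⟩
      rw [h3, card_insert_of_notMem (by
        rw [mem_erase, mem_nA]
        exact fun h => h2 h.2.2), add_zero]
      exact hce
  · rw [if_neg (fun h => h1 (mem_com.1 h).2.2.2), add_zero]
    congr 1
    have hwN : w ∉ nA G A q := fun h => h1 (mem_nA.1 h).2
    ext z
    by_cases hz : z = u
    · rw [hz, hatu, mem_nA]
      exact ⟨fun h => ⟨hu.1, h.resolve_right h1⟩, fun h => Or.inl h.2⟩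
    · rw [hother z hz, erase_eq_of_notMem hwN]

theorem dg_u (hN : nA G A x = {u, w}) (huw : u ≠ w) (hno : ¬ G.Adj u w) (hx : x ∈ A) :
    dg (ctr G u w) (A \ {x, w}) u + (com G A x u w).card + 2 = dg G A u + dg G A w := by
  have hu := nbr_u hN
  have hw := nbr_w hN
  have h1 : nA (ctr G u w) (A \ {x, w}) u = (nA G A u ∪ nA G A w).erase x := by
    ext z
    rw [mem_nA, mem_erase, mem_union, mem_nA, mem_nA, mem_sd]
    constructor
    · rintro ⟨⟨h1, h2, h3⟩, h4, h | h | h⟩
      · exact ⟨h2, Or.inl ⟨h1, h⟩⟩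
      · exact ⟨h2, Or.inr ⟨h1, h.2⟩⟩
      · exact absurd h.1.symm h4
    · rintro ⟨h1, h | h⟩
      · exact ⟨⟨h.1, h1, fun h2 => hno (h2 ▸ h.2)⟩, ctr_adj_of h.2⟩
      · exact ⟨⟨h.1, h1, fun h2 => h.2.ne h2.symm⟩, fun h2 => hno (h2 ▸ h.2).symm,
          Or.inr (Or.inl ⟨rfl, h.2⟩)⟩
  have hxu : x ∈ nA G A u := mem_nA.2 ⟨hx, hu.2.symm⟩
  have hxw : x ∈ nA G A w := mem_nA.2 ⟨hx, hw.2.symm⟩
  have h2 := card_union_add_card_inter (nA G A u) (nA G A w)
  have h3 := card_erase_add_one (mem_union_left (nA G A w) hxu)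
  have h4 := card_erase_add_one (mem_inter.2 ⟨hxu, hxw⟩)
  unfold dg com
  rw [h1]
  omega

theorem ee_ctr (hN : nA G A x = {u, w}) (huw : u ≠ w) (hno : ¬ G.Adj u w) (hx : x ∈ A) :
    ee (ctr G u w) (A \ {x, w}) + 2 * (com G A x u w).card + 4 = ee G A := by
  have hu := nbr_u hN
  have hw := nbr_w hN
  have huA : u ∈ A \ {x, w} := mem_sd.2 ⟨hu.1, hu.2.ne.symm, huw⟩
  have hsub : ({x, w} : Finset V) ⊆ A := by
    intro z hz
    rw [mem_insert, mem_singleton] at hz
    rcases hz with rfl | rfl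
    · exact hx
    · exact hw.1
  have h1 : ee G A = ∑ q ∈ A \ {x, w}, dg G A q + (dg G A x + dg G A w) := by
    unfold ee
    rw [← sum_sdiff hsub, sum_pair hw.2.ne]
  have h2 : ∑ q ∈ A \ {x, w}, dg G A q = dg G A u + ∑ q ∈ (A \ {x, w}).erase u, dg G A q :=
    (add_sum_erase _ _ huA).symm
  have h3 : ee (ctr G u w) (A \ {x, w}) = dg (ctr G u w) (A \ {x, w}) u +
      ∑ q ∈ (A \ {x, w}).erase u, dg (ctr G u w) (A \ {x, w}) q :=
    (add_sum_erase _ _ huA).symm
  have h4 : ∑ q ∈ (A \ {x, w}).erase u, dg (ctr G u w) (A \ {x, w}) q +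
      (com G A x u w).card = ∑ q ∈ (A \ {x, w}).erase u, dg G A q := by
    have h5 : ∑ q ∈ (A \ {x, w}).erase u, (if q ∈ com G A x u w then 1 else 0) =
        (com G A x u w).card := by
      rw [← sum_filter, sum_const, smul_eq_mul, mul_one]
      congr 1
      ext z
      rw [mem_filter, mem_erase, mem_sd]
      constructor
      · exact fun h => h.2
      · intro h
        have h6 := mem_com.1 h
        exact ⟨⟨fun h7 => h6.2.2.1.ne h7, h6.2.1, h6.1, fun h7 => h6.2.2.2.ne h7⟩, h⟩
    rw [← h5, ← sum_add_distrib]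
    refine sum_congr rfl fun q hq => ?_
    rw [mem_erase] at hq
    exact dg_other hN huw hq.2 hq.1
  have h5 : dg G A x = 2 := by
    unfold dg
    rw [hN, card_pair huw]
  have h6 := dg_u hN huw hno hx
  omega

/-- a vertex of degree two in a tight set can be contracted -/
theorem contract (h : Tight G A) (h5 : 5 ≤ A.card) (hx : x ∈ A) (hN : nA G A x = {u, w})
    (huw : u ≠ w) : ∃ H : SimpleGraph V, Tight H (A \ {x, w}) ∧
      al H (A \ {x, w}) + 1 = al G A ∧
      dg H (A \ {x, w}) u + 2 = dg G A u + dg G A w ∧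
      (∀ q ∈ A \ {x, w}, q ≠ u → dg H (A \ {x, w}) q = dg G A q) ∧
      (∀ p q, p ≠ u → q ≠ u → (H.Adj p q ↔ G.Adj p q)) := by
  classical
  have h4 : 4 ≤ A.card := by omega
  have hno := not_adj_uw h.ind h4 hx hN
  have h1 := al_low h.ind h4 hx hN
  have h2 := al_up (G := G) (A := A) hN A
  have h3 := ind_ctr h.ind h4 hx hN huw
  have h6 := ind_ineq h3
  have h7 := cap_le (G := ctr G u w) (A \ {x, w})
  have h8 := ee_ctr hN huw hno hx
  have h9 := card_ctr hx hN
  have h10 := h.eq
  have h11 : (com G A x u w).card = 0 := by omega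
  have h12 := dg_u hN huw hno hx
  refine ⟨ctr G u w, ⟨h3, by omega, by omega⟩, by omega, by omega, ?_, ?_⟩
  · intro q hq hqu
    have h13 := dg_other hN huw hq hqu
    rw [card_eq_zero] at h11
    rw [h11, if_neg (notMem_empty q), add_zero] at h13
    exact h13
  · intro p q hp hq
    exact ctr_adj_iff hp hq

end Pool.Agent.TwoDens.K3T
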