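import Pool.Agent.K3K.KL

/-!
Vertex sets for which `e ≥ 3 n - 4 α - 2` is an equality: definitions.
-/

open Finset

namespace Pool.Agent.TwoDens.K3T

open Pool.Agent.TwoDens Pool.Agent.TwoDens.TS Pool.Agent.TwoDens.K3K

variable {V : Type*} [LinearOrder V]

open Classical in
/-- the neighbours of `x` in `A` -/
noncomputable def nA (G : SimpleGraph V) (A : Finset V) (x : V) : Finset V := A.filter (G.Adj x)

/-- the degree of `x` in `A` -/
noncomputable def dg (G : SimpleGraph V) (A : Finset V) (x : V) : ℕ := (nA G A x).card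

/-- twice the number of edges inside `A` -/
noncomputable def ee (G : SimpleGraph V) (A : Finset V) : ℕ := ∑ x ∈ A, dg G A x

theorem mem_nA {G : SimpleGraph V} {A : Finset V} {x y : V} :
    y ∈ nA G A x ↔ y ∈ A ∧ G.Adj x y := by
  simp only [nA, mem_filter]

theorem nA_sub {G : SimpleGraph V} {A : Finset V} {x : V} : nA G A x ⊆ A := by
  intro y hy
  exact (mem_nA.1 hy).1

theorem nA_mono {G : SimpleGraph V} {A B : Finset V} (h : A ⊆ B) (x : V) :
    nA G A x ⊆ nA G B x := by
  intro y hy
  rw [mem_nA] at hy ⊢
  exact ⟨h hy.1, hy.2⟩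

theorem dg_mono {G : SimpleGraph V} {A B : Finset V} (h : A ⊆ B) (x : V) :
    dg G A x ≤ dg G B x := card_le_card (nA_mono h x)

theorem ee_eq_e2 (G : SimpleGraph V) [DecidableRel G.Adj] (A : Finset V) :
    ee G A = e2 G A := by
  unfold ee e2 dg nA
  refine sum_congr rfl fun x _ => congrArg Finset.card ?_
  ext y
  simp only [mem_filter]

/-- the edge inequality for indecomposable sets -/
theorem ind_ineq {G : SimpleGraph V} {A : Finset V} (h : Ind G A) :
    6 * A.card ≤ ee G A + 2 * cap G A + 8 * al G A := by
  classical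
  have h1 := lemK_ind (G := G) A h
  have h2 := e2_ed (G := G) A
  rw [ee_eq_e2]
  omega

/-- `A` is indecomposable, has at least three vertices, and `e = 3 n - 4 α - 2` -/
structure Tight (G : SimpleGraph V) (A : Finset V) : Prop where
  ind : Ind G A
  three : 3 ≤ A.card
  eq : ee G A + 8 * al G A + 4 = 6 * A.card

/-- `B` is a tight part of `A`, and exactly three edges of `A` leave `B`, at the three different
vertices of `T`, which meets every maximum independent set of `B` -/
structure Good (G : SimpleGraph V) (A B T : Finset V) : Prop where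
  sub : B ⊆ A
  tight : Tight G B
  tsub : T ⊆ B
  tcard : T.card = 3
  inT : ∀ x ∈ T, dg G A x = dg G B x + 1
  outT : ∀ x ∈ B, x ∉ T → dg G A x = dg G B x
  tr : al G (B \ T) < al G B

/-- a clique of size `k` all of whose vertices have degree `k` in `A` -/
structure St (G : SimpleGraph V) (A : Finset V) (k : ℕ) (S : Finset V) : Prop where
  sub : S ⊆ A
  card : S.card = k
  clq : Clq G S
  deg : ∀ x ∈ S, dg G A x = k

/-- two disjoint structures: pairs of adjacent vertices of degree 2, or triangles of vertices of
degree 3 -/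
def Two (G : SimpleGraph V) (A : Finset V) : Prop :=
  ∃ S T : Finset V, Disjoint S T ∧ (St G A 2 S ∨ St G A 3 S) ∧ (St G A 2 T ∨ St G A 3 T)

end Pool.Agent.TwoDens.K3T
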