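import Pool.Agent.K3T.Defs
import Pool.Agent.T3L.Low

/-!
The lower bound for `M(2 s + i, s + 1)`, `2 s < 3 i`, `i < s`, from the structure of the vertex
sets with `e = 3 n - 4 α - 2`.
-/

open Finset

namespace Pool.Agent.TwoDens.K3T

open Pool.Agent.TwoDens Pool.Agent.TwoDens.RK Pool.Agent.TwoDens.DD Pool.Agent.TwoDens.TS
  Pool.Agent.TwoDens.K3K

section
variable {V : Type*} [LinearOrder V] {G : SimpleGraph V} [DecidableRel G.Adj]

theorem dg_eq_nb (A : Finset V) (x : V) : dg G A x = (nb G A x).card := by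
  unfold dg nA nb
  refine congrArg Finset.card ?_
  ext y
  simp only [mem_filter]

/-- a structure in a triangle-free graph is a pair of adjacent vertices of degree two -/
theorem St.pair {A S : Finset V} (htf : T3.TF G) (h : St G A 2 S ∨ St G A 3 S) :
    ∃ x ∈ A, ∃ y ∈ A, S = {x, y} ∧ G.Adj x y ∧ (nb G A x).card = 2 ∧ (nb G A y).card = 2 := by
  rcases h with h | h
  · obtain ⟨x, y, hxy, rfl⟩ := card_eq_two.1 h.card
    refine ⟨x, h.sub (by simp), y, h.sub (by simp), rfl, h.clq x (by simp) y (by simp) hxy, ?_, ?_⟩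
    · rw [← dg_eq_nb]
      exact h.deg x (by simp)
    · rw [← dg_eq_nb]
      exact h.deg y (by simp)
  · obtain ⟨x, y, z, hxy, hxz, hyz, rfl⟩ := card_eq_three.1 h.card
    exact absurd (h.clq x (by simp) z (by simp) hxz)
      (htf x y z (h.clq x (by simp) y (by simp) hxy) (h.clq y (by simp) z (by simp) hyz))

theorem Two.ends {A : Finset V} (htf : T3.TF G) (h : Two G A) : T3.Ends G A := by
  obtain ⟨S, T, hd, hS, hT⟩ := h
  obtain ⟨x, hx, x', hx', rfl, hxx, d1, d2⟩ := St.pair htf hS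
  obtain ⟨y, hy, y', hy', rfl, hyy, d3, d4⟩ := St.pair htf hT
  rw [Finset.disjoint_left] at hd
  have h1 := hd (a := x) (by simp)
  have h2 := hd (a := x') (by simp)
  simp only [mem_insert, mem_singleton, not_or] at h1 h2
  exact ⟨x, hx, x', hx', y, hy, y', hy', hxx, hyy, h1.1, h1.2, h2.1, h2.2, d1, d2, d3, d4⟩

end

/-- the lower bound from the structure theorem -/
theorem lowerT_aux (s i : ℕ) (h : 2 * s < 3 * i) (h2 : i < s)
    (hS : ∀ (G : SimpleGraph (Fin (2 * s + i))) (A : Finset (Fin (2 * s + i))),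
      Tight G A → 5 ≤ A.card → 2 * al G A + 2 ≤ A.card → Two G A)
    {c : ℝ} (hc53 : c ≤ 5 / 3)
    (hc : ∀ d, 3 ≤ d → d ≤ i → d + 1 ≤ d * s / i →
      (c - 1) * (2 * ((d * s / i : ℕ) : ℝ) + d - 6) ≤ 2 * (d : ℝ) - 3) :
    c ≤ minTwoDensity (2 * s + i) (s + 1) := by
  have hi : 1 ≤ i := by omega
  refine le_minTwoDensity (by omega) ?_
  intro G _ hα
  by_contra hcon
  push Not at hcon
  have hn : (Finset.univ : Finset (Fin (2 * s + i))).card = 2 * s + i := by
    rw [Finset.card_univ, Fintype.card_fin]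
  have hTF : T3.TF G := by
    intro x y z hxy hyz hxz
    obtain ⟨h1, h2⟩ := T3.e2_tri hxy hyz hxz
    have h3 := hcon {x, y, z} h1.ge
    rw [h1, h2] at h3
    push_cast at h3
    linarith
  have hRK : ∀ Y : Finset (Fin (2 * s + i)), 10 * Y.card ≤ e2 G Y + 20 * al G Y := by
    intro Y
    exact RK.main hTF _ Y rfl (al G Y) (fun I hI hi => le_al hI hi)
  have hnu : ∀ Y : Finset (Fin (2 * s + i)), Y.Nonempty → Y.card + 1 ≤ 3 * al G Y := by
    intro Y hne
    by_contra hY
    push Not at hY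
    have h1 := al_pos (G := G) hne
    have h2 := hRK Y
    have h3 : 3 ≤ Y.card := by omega
    have h4 := hcon Y h3
    have h5 : 10 * Y.card ≤ 3 * e2 G Y := by omega
    have h6 : 10 * (Y.card : ℝ) ≤ 3 * (e2 G Y : ℝ) := by exact_mod_cast h5
    have h7 : (3 : ℝ) ≤ (Y.card : ℝ) := by exact_mod_cast h3
    have h8 : c * ((Y.card : ℝ) - 2) ≤ 5 / 3 * ((Y.card : ℝ) - 2) :=
      mul_le_mul_of_nonneg_right hc53 (by linarith)
    linarith
  have hal : al G Finset.univ ≤ s := al_le (fun I _ hI => by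
    have := hα I hI
    omega)
  obtain ⟨P, hP⟩ := exists_dec (G := G) Finset.univ
  have h3 : ∑ X ∈ P, X.card = 2 * s + i := by
    have h0 : (P.biUnion id).card = ∑ X ∈ P, X.card :=
      card_biUnion (fun A hA B hB h => hP.disj A hA B hB h)
    rw [hP.un] at h0
    exact h0.symm.trans hn
  have hPn : P.Nonempty := by
    rw [nonempty_iff_ne_empty]
    rintro rfl
    rw [sum_empty] at h3
    omega
  obtain ⟨X, hX, hX1, hX2⟩ : ∃ X ∈ P, 2 * al G X + 1 ≤ X.card ∧
      al G X * i ≤ (X.card - 2 * al G X) * s := by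
    by_contra hcon
    push Not at hcon
    have h4 : ∀ X ∈ P, ((X.card : ℤ) - 2 * al G X) * s < (al G X : ℤ) * i := by
      intro X hX
      have ha := al_pos (G := G) (hP.ind X hX).1
      have h5 : 1 ≤ al G X * i := Nat.mul_pos ha hi
      have h6 : (1 : ℤ) ≤ al G X * i := by exact_mod_cast h5
      rcases Nat.lt_or_ge (2 * al G X) X.card with h7 | h7
      · have h8 := hcon X hX h7
        obtain ⟨d, hd⟩ : ∃ d, X.card = 2 * al G X + d := ⟨X.card - 2 * al G X, by omega⟩
        have h9 : X.card - 2 * al G X = d := by omega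
        rw [h9] at h8
        have h10 : (X.card : ℤ) - 2 * al G X = d := by
          have : (X.card : ℤ) = 2 * al G X + d := by exact_mod_cast hd
          linarith
        rw [h10]
        exact_mod_cast h8
      · have h8 : (X.card : ℤ) - 2 * al G X ≤ 0 := by
          have : (X.card : ℤ) ≤ 2 * al G X := by exact_mod_cast h7
          linarith
        have h9 : ((X.card : ℤ) - 2 * al G X) * s ≤ 0 :=
          mul_nonpos_of_nonpos_of_nonneg h8 (Int.natCast_nonneg _)
        linarith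
    have h5 : ∑ X ∈ P, ((X.card : ℤ) - 2 * al G X) * s < ∑ X ∈ P, (al G X : ℤ) * i :=
      sum_lt_sum_of_nonempty hPn h4
    rw [← sum_mul, ← sum_mul, sum_sub_distrib, ← mul_sum] at h5
    have h6 : ∑ X ∈ P, (X.card : ℤ) = 2 * s + i := by exact_mod_cast h3
    have h7 : ∑ X ∈ P, (al G X : ℤ) = al G Finset.univ := by exact_mod_cast hP.sum
    rw [h6, h7] at h5
    have h8 : (al G Finset.univ : ℤ) ≤ s := by exact_mod_cast hal
    have h9 : (i : ℤ) * s ≤ (2 * s + i - 2 * al G Finset.univ) * s :=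
      mul_le_mul_of_nonneg_right (by linarith) (Int.natCast_nonneg _)
    have h10 : (al G Finset.univ : ℤ) * i ≤ s * i :=
      mul_le_mul_of_nonneg_right h8 (Int.natCast_nonneg _)
    linarith
  obtain ⟨d, hd⟩ : ∃ d, X.card = 2 * al G X + d := ⟨X.card - 2 * al G X, by omega⟩
  obtain ⟨a, ha⟩ : ∃ a, al G X = a := ⟨_, rfl⟩
  rw [ha] at hX1 hX2 hd
  have hd1 : 1 ≤ d := by omega
  have had : d + 1 ≤ a := by
    have h4 := hnu X (hP.ind X hX).1
    rw [ha] at h4
    omega
  have hX2' : a * i ≤ d * s := by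
    have h5 : X.card - 2 * a = d := by omega
    rwa [h5] at hX2
  have h2a : 2 * a < 3 * d := by
    by_contra hh
    push Not at hh
    have h4 : 3 * d * i ≤ 2 * a * i := Nat.mul_le_mul_right i hh
    have h5 : 2 * (a * i) ≤ 2 * (d * s) := Nat.mul_le_mul_left 2 hX2'
    have h6 : d * (2 * s) < d * (3 * i) := Nat.mul_lt_mul_of_pos_left h hd1
    have h7 : 3 * d * i = d * (3 * i) := by ring
    have h8 : 2 * a * i = 2 * (a * i) := by ring
    have h9 : 2 * (d * s) = d * (2 * s) := by ring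
    omega
  have hd3 : 3 ≤ d := by omega
  have hfl : a ≤ d * s / i := by
    rw [Nat.le_div_iff_mul_le hi]
    exact hX2'
  have has : a ≤ s := by
    rw [← ha]
    exact (al_mono (Finset.subset_univ X)).trans hal
  -- the key inequality
  have hdR : (3 : ℝ) ≤ d := by exact_mod_cast hd3
  have haR : (d : ℝ) + 1 ≤ a := by exact_mod_cast had
  have hcard : (X.card : ℝ) = 2 * a + d := by exact_mod_cast hd
  have hkey : 2 * (d : ℝ) - 3 < (c - 1) * (2 * (a : ℝ) + d - 6) := by
    obtain ⟨e, he⟩ := e2_even (G := G) X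
    have h4 := ind_ineq (hP.ind X hX)
    rw [ee_eq_e2, ha] at h4
    have h5 := cap_le (G := G) X
    rcases Nat.lt_or_ge (e2 G X + 8 * a + 4) (6 * X.card + 1) with h6 | h6
    · have hT : Tight G X := ⟨hP.ind X hX, by omega, by
        rw [ee_eq_e2, ha]
        omega⟩
      have hE := (hS G X hT (by omega) (by rw [ha]; omega)).ends hTF
      obtain ⟨Y, _, hY, hYe⟩ := T3.ends_del hE
      have h7 := hcon Y (by omega)
      have h8 : 6 * X.card ≤ e2 G Y + 8 * a + 16 := by omega
      have h9 : 6 * (X.card : ℝ) ≤ e2 G Y + 8 * a + 16 := by exact_mod_cast h8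
      have h10 : (Y.card : ℝ) + 4 = X.card := by exact_mod_cast hY
      rw [hcard] at h9 h10
      have h11 : (Y.card : ℝ) - 2 = 2 * a + d - 6 := by linarith
      rw [h11] at h7
      linarith
    · have h7 := hcon X (by omega)
      have h8 : 6 * X.card ≤ e2 G X + 8 * a + 2 := by omega
      have h9 : 6 * (X.card : ℝ) ≤ e2 G X + 8 * a + 2 := by exact_mod_cast h8
      rw [hcard] at h9 h7
      linarith
  rcases Nat.lt_or_ge i d with h4 | h4
  · have h5 := hc i (by omega) le_rfl (by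
      rw [Nat.mul_div_cancel_left s hi]
      omega)
    rw [Nat.mul_div_cancel_left s hi] at h5
    have hiR : (i : ℝ) + 1 ≤ d := by exact_mod_cast h4
    have hasR : (a : ℝ) ≤ s := by exact_mod_cast has
    have h6 : (c - 1) * ((d : ℝ) - i) ≤ 1 * ((d : ℝ) - i) :=
      mul_le_mul_of_nonneg_right (by linarith) (by linarith)
    have h7 : 0 ≤ c - 1 := by
      by_contra hh
      push Not at hh
      have h8 : (c - 1) * (2 * (a : ℝ) + d - 6) ≤ 0 :=
        mul_nonpos_of_nonpos_of_nonneg hh.le (by linarith)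
      linarith
    have h8 : (c - 1) * (2 * (a : ℝ) + d - 6) ≤ (c - 1) * (2 * (s : ℝ) + d - 6) :=
      mul_le_mul_of_nonneg_left (by linarith) h7
    linarith
  · have h5 := hc d hd3 h4 (by omega)
    have h7 : 0 ≤ c - 1 := by
      by_contra hh
      push Not at hh
      have h8 : (c - 1) * (2 * (a : ℝ) + d - 6) ≤ 0 :=
        mul_nonpos_of_nonpos_of_nonneg hh.le (by linarith)
      linarith
    have hflR : (a : ℝ) ≤ ((d * s / i : ℕ) : ℝ) := by exact_mod_cast hfl
    have h8 : (c - 1) * (2 * (a : ℝ) + d - 6) ≤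
        (c - 1) * (2 * ((d * s / i : ℕ) : ℝ) + d - 6) :=
      mul_le_mul_of_nonneg_left (by linarith) h7
    linarith

/-- the closed form -/
theorem lowerT (s i : ℕ) (h : 2 * s < 3 * i) (h2 : i < s)
    (hS : ∀ (G : SimpleGraph (Fin (2 * s + i))) (A : Finset (Fin (2 * s + i))),
      Tight G A → 5 ≤ A.card → 2 * al G A + 2 ≤ A.card → Two G A) :
    (2 * (s : ℝ) + 3 * i - 9) / (2 * s + i - 6) ≤ minTwoDensity (2 * s + i) (s + 1) := by
  have hR1 : 2 * (s : ℝ) + 1 ≤ 3 * i := by exact_mod_cast h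
  have hR2 : (i : ℝ) + 1 ≤ s := by exact_mod_cast h2
  have hR3 : (3 : ℝ) ≤ i := by
    have : 3 ≤ i := by omega
    exact_mod_cast this
  have hpos : (0 : ℝ) < 2 * (s : ℝ) + i - 6 := by linarith
  have he : (2 * (s : ℝ) + 3 * i - 9) / (2 * s + i - 6) - 1 = (2 * i - 3) / (2 * s + i - 6) := by
    field_simp
    ring
  refine lowerT_aux s i h h2 hS ?_ ?_
  · rw [div_le_iff₀ hpos]
    linarith
  · intro d hd hdi _
    rw [he, div_mul_eq_mul_div, div_le_iff₀ hpos]
    have h3 : (((d * s / i : ℕ) : ℕ) : ℝ) * i ≤ d * s := by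
      have := Nat.div_mul_le_self (d * s) i
      exact_mod_cast this
    have hdR : (3 : ℝ) ≤ d := by exact_mod_cast hd
    have hdiR : (d : ℝ) ≤ i := by exact_mod_cast hdi
    obtain ⟨a, ha⟩ : ∃ a : ℝ, a = ((d * s / i : ℕ) : ℝ) := ⟨_, rfl⟩
    rw [← ha] at h3 ⊢
    have h4 : 0 ≤ ((i : ℝ) - d) * (3 * i - 2 * s) := mul_nonneg (by linarith) (by linarith)
    have h5 : (2 * (i : ℝ) - 3) * (a * i) ≤ (2 * i - 3) * (d * s) :=
      mul_le_mul_of_nonneg_left h3 (by linarith)
    have h6 : (2 * (i : ℝ) - 3) * (2 * a + d - 6) * i ≤ (2 * d - 3) * (2 * s + i - 6) * i := by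
      nlinarith
    exact le_of_mul_le_mul_right h6 (by linarith)

end Pool.Agent.TwoDens.K3T
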