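import Pool.Agent.K3T.Basic

/-!
Every tight set with at least five vertices and `n ≥ 2 α + 2` has two disjoint structures.
-/

open Finset

namespace Pool.Agent.TwoDens.K3T

open Pool.Agent.TwoDens Pool.Agent.TwoDens.TS Pool.Agent.TwoDens.K3K

variable {V : Type*} [LinearOrder V]

/-- a good part together with a new vertex joined to its ends is tight -/
def StarSt (V : Type*) [LinearOrder V] : Prop :=
  ∀ (G : SimpleGraph V) (A B T : Finset V), Good G A B T → ∀ z, z ∉ B →
    ∃ H : SimpleGraph V, Tight H (insert z B) ∧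
      (∀ x ∈ B, dg H (insert z B) x = dg G A x) ∧ dg H (insert z B) z = 3 ∧
      (∀ x ∈ B, ∀ y ∈ B, (H.Adj x y ↔ G.Adj x y)) ∧ (∀ x ∈ B, (H.Adj z x ↔ x ∈ T))

/-- contraction of a vertex of degree two -/
def ContractSt (V : Type*) [LinearOrder V] : Prop :=
  ∀ (G : SimpleGraph V) (A : Finset V), Tight G A → 5 ≤ A.card → ∀ x ∈ A, ∀ u w,
    nA G A x = {u, w} → u ≠ w →
    ∃ H : SimpleGraph V, Tight H (A \ {x, w}) ∧ al H (A \ {x, w}) + 1 = al G A ∧
      dg H (A \ {x, w}) u + 2 = dg G A u + dg G A w ∧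
      (∀ q ∈ A \ {x, w}, q ≠ u → dg H (A \ {x, w}) q = dg G A q) ∧
      (∀ p ∈ A \ {x, w}, ∀ q ∈ A \ {x, w}, p ≠ u → q ≠ u → (H.Adj p q ↔ G.Adj p q))

/-- the induction hypothesis -/
def IH (V : Type*) [LinearOrder V] (n : ℕ) : Prop :=
  ∀ (G : SimpleGraph V) (A : Finset V), A.card < n → Tight G A → 5 ≤ A.card →
    2 * al G A + 2 ≤ A.card → Two G A

variable {G : SimpleGraph V}

theorem St.two_ne {A S : Finset V} (h : St G A 2 S) (hd : ∀ x ∈ A, 3 ≤ dg G A x) : False := by
  have h1 : S.Nonempty := by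
    rw [← card_pos, h.card]
    omega
  obtain ⟨x, hx⟩ := h1
  have h2 := h.deg x hx
  have h3 := hd x (h.sub hx)
  omega

/-- two disjoint triangles if all degrees are at least three -/
theorem Two.tri {A : Finset V} (h : Two G A) (hd : ∀ x ∈ A, 3 ≤ dg G A x) :
    ∃ S T, Disjoint S T ∧ St G A 3 S ∧ St G A 3 T := by
  obtain ⟨S, T, h1, h2, h3⟩ := h
  refine ⟨S, T, h1, h2.resolve_left fun h4 => h4.two_ne hd, h3.resolve_left fun h4 => h4.two_ne hd⟩

/-- the induction hypothesis for sets with all degrees at least three -/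
theorem IH.tri {n : ℕ} (ih : IH V n) {A : Finset V} (hA : Tight G A) (hn : A.card < n)
    (h5 : 5 ≤ A.card) (hd : ∀ x ∈ A, 3 ≤ dg G A x) :
    ∃ S T, Disjoint S T ∧ St G A 3 S ∧ St G A 3 T := by
  have h1 := ee_ge hd
  have h2 := hA.eq
  exact (ih G A hn hA h5 (by omega)).tri hd

/-- a triangle structure of the extended part that avoids the new vertex is one of `A` -/
theorem St.pull {A B T S : Finset V} {H : SimpleGraph V} {z : V} (hg : Good G A B T)
    (h2 : ∀ x ∈ B, dg H (insert z B) x = dg G A x)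
    (h4 : ∀ x ∈ B, ∀ y ∈ B, (H.Adj x y ↔ G.Adj x y)) (hS : St H (insert z B) 3 S)
    (hz : z ∉ S) : S ⊆ B ∧ St G A 3 S := by
  have h5 : S ⊆ B := by
    intro x hx
    rcases mem_insert.1 (hS.sub hx) with rfl | h
    · exact absurd hx hz
    · exact h
  refine ⟨h5, h5.trans hg.sub, hS.card, ?_, ?_⟩
  · intro a ha b hb hab
    exact (h4 a (h5 ha) b (h5 hb)).1 (hS.clq a ha b hb hab)
  · intro x hx
    rw [← h2 x (h5 hx)]
    exact hS.deg x hx

theorem claimC {n : ℕ} (ih : IH V n) (hstar : StarSt V) {A B T : Finset V} (hn : A.card = n)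
    (hd : ∀ x ∈ A, 3 ≤ dg G A x) (hg : Good G A B T) (hB : B.card + 2 ≤ A.card) :
    ∃ S ⊆ B, St G A 3 S := by
  obtain ⟨z, hzA, hz⟩ : ∃ z ∈ A, z ∉ B := by
    by_contra hcon
    push Not at hcon
    have := card_le_card (show A ⊆ B from fun x hx => hcon x hx)
    omega
  obtain ⟨H, h1, h2, h3, h4, h5⟩ := hstar G A B T hg z hz
  have hc : (insert z B).card = B.card + 1 := card_insert_of_notMem hz
  have hd' : ∀ x ∈ insert z B, 3 ≤ dg H (insert z B) x := by
    intro x hx
    rcases mem_insert.1 hx with rfl | hx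
    · omega
    · rw [h2 x hx]
      exact hd x (hg.sub hx)
  have h6 := hg.tight.three
  by_cases h7 : B.card = 3
  · have h8 := ee_ge hd'
    have h9 := h1.eq
    have h10 : al H (insert z B) ≤ 1 := by omega
    refine ⟨B, Subset.refl B, hg.sub, h7, ?_, ?_⟩
    · intro a ha b hb hab
      exact (h4 a ha b hb).1 (adj_of_al_one h10 (mem_insert_of_mem ha) (mem_insert_of_mem hb) hab)
    · intro x hx
      have h11 := dg_of_al_one h10 (mem_insert_of_mem (a := x) hx)
      rw [h2 x hx] at h11
      omega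
  · obtain ⟨S, S', h8, h9, h10⟩ := ih.tri h1 (by omega) (by omega) hd'
    by_cases hzS : z ∈ S
    · have h11 : z ∉ S' := fun h => Finset.disjoint_left.1 h8 hzS h
      obtain ⟨h12, h13⟩ := h10.pull hg h2 h4 h11
      exact ⟨S', h12, h13⟩
    · obtain ⟨h12, h13⟩ := h9.pull hg h2 h4 hzS
      exact ⟨S, h12, h13⟩

/-- the cubic case, one part -/
theorem claimD {n : ℕ} (ih : IH V n) {A : Finset V} (hn : A.card = n) (hA : Tight G A)
    (h5 : 5 ≤ A.card) (hd : ∀ x ∈ A, dg G A x = 3) {v : V} (hv : v ∈ A)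
    (hB : Tight G (A \ {v})) : Two G A := by
  have hc := card_sdiff_add_card_eq_card (singleton_subset_iff.2 hv)
  rw [card_singleton] at hc
  have h1 := ee_eq_mul hd
  have h2 := hA.eq
  have h3 : al G (A \ {v}) = al G A := hA.ind.av1 (by omega) hv
  obtain ⟨S, T, h4, hS, hT⟩ := ih G (A \ {v}) (by omega) hB (by omega) (by omega)
  have hvS : ∀ {k : ℕ} {S : Finset V}, St G (A \ {v}) k S → v ∉ S := by
    intro k S hS hvS
    exact (mem_sdiff.1 (hS.sub hvS)).2 (mem_singleton_self v)
  -- triangles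
  have key3 : ∀ {S : Finset V}, St G (A \ {v}) 3 S → St G A 3 S := by
    intro S hS
    refine ⟨hS.sub.trans sdiff_subset, hS.card, hS.clq, ?_⟩
    intro x hx
    exact hd x (mem_sdiff.1 (hS.sub hx)).1
  -- pairs
  have hadj : ∀ {S : Finset V}, St G (A \ {v}) 2 S → ∀ x ∈ S, G.Adj v x := by
    intro S hS x hx
    by_contra hcon
    have h6 := dg_erase_nonadj (G := G) (A := A) (v := v) (x := x) (fun h => hcon h.symm)
    have h7 := hS.deg x hx
    have h8 := hd x (mem_sdiff.1 (hS.sub hx)).1
    omega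
  have key2 : ∀ {S : Finset V}, St G (A \ {v}) 2 S → St G A 3 (insert v S) := by
    intro S hS
    refine ⟨?_, ?_, ?_, ?_⟩
    · intro x hx
      rcases mem_insert.1 hx with rfl | hx
      · exact hv
      · exact (mem_sdiff.1 (hS.sub hx)).1
    · rw [card_insert_of_notMem (hvS hS), hS.card]
    · intro a ha b hb hab
      rcases mem_insert.1 ha with ha' | ha' <;> rcases mem_insert.1 hb with hb' | hb'
      · exact absurd (ha'.trans hb'.symm) hab
      · rw [ha']
        exact hadj hS b hb'
      · rw [hb']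
        exact (hadj hS a ha').symm
      · exact hS.clq a ha' b hb' hab
    · intro x hx
      rcases mem_insert.1 hx with rfl | hx
      · exact hd x hv
      · exact hd x (mem_sdiff.1 (hS.sub hx)).1
  rcases hS with hS | hS <;> rcases hT with hT | hT
  · exfalso
    have h6 : S ∪ T ⊆ nA G A v := by
      intro x hx
      rcases mem_union.1 hx with hx | hx
      · exact mem_nA.2 ⟨(mem_sdiff.1 (hS.sub hx)).1, hadj hS x hx⟩
      · exact mem_nA.2 ⟨(mem_sdiff.1 (hT.sub hx)).1, hadj hT x hx⟩
    have h7 := card_le_card h6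
    rw [card_union_of_disjoint h4, hS.card, hT.card] at h7
    have h8 := hd v hv
    unfold dg at h8
    omega
  · refine ⟨insert v S, T, ?_, Or.inr (key2 hS), Or.inr (key3 hT)⟩
    rw [disjoint_insert_left]
    exact ⟨hvS hT, h4⟩
  · refine ⟨S, insert v T, ?_, Or.inr (key3 hS), Or.inr (key2 hT)⟩
    rw [disjoint_insert_right]
    exact ⟨hvS hS, h4⟩
  · exact ⟨S, T, h4, Or.inr (key3 hS), Or.inr (key3 hT)⟩

/-- in the cubic case every vertex has a good part in its complement -/
theorem exists_good {A : Finset V} (hA : Tight G A) (hd : ∀ x ∈ A, dg G A x = 3) {v : V}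
    (hv : v ∈ A) : ∃ B T, Good G A B T ∧ v ∉ B ∧ (Tight G (A \ {v}) ∨ B.card + 2 ≤ A.card) := by
  obtain ⟨Q, h1, h2, h3⟩ := pieces hA hv
  rw [hd v hv] at h3
  have h4 : Q.Nonempty := by
    rw [← card_pos]
    omega
  obtain ⟨B, hB⟩ := h4
  obtain ⟨hvB, T, hT⟩ := h1 B hB
  refine ⟨B, T, hT, hvB, ?_⟩
  have hsub : B ⊆ A \ {v} := by
    intro x hx
    rw [mem_sdiff, mem_singleton]
    refine ⟨hT.sub hx, ?_⟩
    rintro rfl
    exact hvB hx
  have hc := card_sdiff_add_card_eq_card (singleton_subset_iff.2 hv)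
  rw [card_singleton] at hc
  by_cases h5 : B = A \ {v}
  · left
    rw [← h5]
    exact hT.tight
  · right
    have h6 := card_lt_card (Finset.ssubset_iff_subset_ne.2 ⟨hsub, h5⟩)
    omega

theorem cubic {n : ℕ} (ih : IH V n) (hstar : StarSt V) {A : Finset V} (hn : A.card = n)
    (hA : Tight G A) (h5 : 5 ≤ A.card) (hd : ∀ x ∈ A, dg G A x = 3) : Two G A := by
  have hd' : ∀ x ∈ A, 3 ≤ dg G A x := fun x hx => (hd x hx).ge
  obtain ⟨v, hv⟩ := hA.ind.1
  obtain ⟨B, T, hg, hvB, hB⟩ := exists_good hA hd hv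
  rcases hB with hB | hB
  · exact claimD ih hn hA h5 hd hv hB
  obtain ⟨D, hDB, hD⟩ := claimC ih hstar hn hd' hg hB
  obtain ⟨b, x, y, hbx, hby, hxy, hDe⟩ := card_eq_three.1 hD.card
  have hbD : b ∈ D := by rw [hDe]; simp
  have hxD : x ∈ D := by rw [hDe]; simp
  have hyD : y ∈ D := by rw [hDe]; simp
  have hbA := hD.sub hbD
  have hxA := hD.sub hxD
  have hyA := hD.sub hyD
  have abx := hD.clq b hbD x hxD hbx
  have aby := hD.clq b hbD y hyD hby
  have axy := hD.clq x hxD y hyD hxy
  obtain ⟨B', T', hg', hbB', hB'⟩ := exists_good hA hd hbA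
  rcases hB' with hB' | hB'
  · exact claimD ih hn hA h5 hd hbA hB'
  by_cases hin : x ∈ B' ∨ y ∈ B'
  swap
  · push Not at hin
    obtain ⟨S, hSB, hS⟩ := claimC ih hstar hn hd' hg' hB'
    refine ⟨S, D, ?_, Or.inr hS, Or.inr hD⟩
    rw [Finset.disjoint_left]
    intro t ht htD
    rw [hDe, mem_insert, mem_insert, mem_singleton] at htD
    rcases htD with rfl | rfl | rfl
    · exact hbB' (hSB ht)
    · exact hin.1 (hSB ht)
    · exact hin.2 (hSB ht)
  have hboth : x ∈ B' ∧ y ∈ B' := by
    rcases hin with h | h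
    · exact ⟨h, hg'.nbr h (hd x hxA) hbA hbB' abx.symm hyA (Ne.symm hby) axy⟩
    · exact ⟨hg'.nbr h (hd y hyA) hbA hbB' aby.symm hxA (Ne.symm hbx) axy.symm, h⟩
  obtain ⟨hxB', hyB'⟩ := hboth
  have hxT' : x ∈ T' := hg'.mem_T hxB' hbA hbB' abx.symm
  have hyT' : y ∈ T' := hg'.mem_T hyB' hbA hbB' aby.symm
  have h3' := hg'.tight.three
  by_cases hB3 : B'.card = 3
  swap
  · obtain ⟨H, h1, h2, h3, h4, h6⟩ := hstar G A B' T' hg' b hbB'
    have hc : (insert b B').card = B'.card + 1 := card_insert_of_notMem hbB'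
    have hdH : ∀ t ∈ insert b B', 3 ≤ dg H (insert b B') t := by
      intro t ht
      rcases mem_insert.1 ht with rfl | ht
      · omega
      · rw [h2 t ht]
        exact hd' t (hg'.sub ht)
    obtain ⟨S, S', h8, h9, h10⟩ := ih.tri h1 (by omega) (by omega) hdH
    have hDH : St H (insert b B') 3 D := by
      refine ⟨?_, hD.card, ?_, ?_⟩
      · intro t ht
        rw [hDe, mem_insert, mem_insert, mem_singleton] at ht
        rcases ht with rfl | rfl | rfl
        · exact mem_insert_self _ _
        · exact mem_insert_of_mem hxB'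
        · exact mem_insert_of_mem hyB'
      · have hHbx : H.Adj b x := (h6 x hxB').2 hxT'
        have hHby : H.Adj b y := (h6 y hyB').2 hyT'
        have hHxy : H.Adj x y := (h4 x hxB' y hyB').2 axy
        intro p hp q hq hpq
        rw [hDe, mem_insert, mem_insert, mem_singleton] at hp hq
        rcases hp with rfl | rfl | rfl <;> rcases hq with rfl | rfl | rfl
        · exact absurd rfl hpq
        · exact hHbx
        · exact hHby
        · exact hHbx.symm
        · exact absurd rfl hpq
        · exact hHxy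
        · exact hHby.symm
        · exact hHxy.symm
        · exact absurd rfl hpq
      · intro t ht
        rw [hDe, mem_insert, mem_insert, mem_singleton] at ht
        rcases ht with rfl | rfl | rfl
        · exact h3
        · rw [h2 _ hxB']
          exact hd _ hxA
        · rw [h2 _ hyB']
          exact hd _ hyA
    have hdis : Disjoint S D ∨ Disjoint S' D := by
      by_contra hcon
      push Not at hcon
      have h11 : 2 ≤ (S ∩ D).card := h9.inter hDH (not_disjoint_iff_nonempty_inter.1 hcon.1)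
      have h12 : 2 ≤ (S' ∩ D).card := h10.inter hDH (not_disjoint_iff_nonempty_inter.1 hcon.2)
      have h13 : Disjoint (S ∩ D) (S' ∩ D) :=
        Disjoint.mono inter_subset_left inter_subset_left h8
      have h14 := card_le_card (union_subset (inter_subset_right (s₁ := S) (s₂ := D))
        (inter_subset_right (s₁ := S') (s₂ := D)))
      rw [card_union_of_disjoint h13, hD.card] at h14
      omega
    rcases hdis with hdis | hdis
    · have hbS : b ∉ S := fun h => Finset.disjoint_left.1 hdis h hbD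
      obtain ⟨h12, h13⟩ := h9.pull hg' h2 h4 hbS
      exact ⟨S, D, hdis, Or.inr h13, Or.inr hD⟩
    · have hbS : b ∉ S' := fun h => Finset.disjoint_left.1 hdis h hbD
      obtain ⟨h12, h13⟩ := h10.pull hg' h2 h4 hbS
      exact ⟨S', D, hdis, Or.inr h13, Or.inr hD⟩
  -- the part is a triangle
  have hal : al G B' ≤ 1 := by
    have h7 := hg'.tight.eq
    have h8 := ee_ge (G := G) (A := B') (k := 2) fun t ht =>
      two_le_dg hg'.tight.ind hg'.tight.three ht
    omega
  obtain ⟨o, hoB', hox, hoy⟩ : ∃ o ∈ B', o ≠ x ∧ o ≠ y := by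
    by_contra hcon
    push Not at hcon
    have h7 : B' ⊆ {x, y} := by
      intro t ht
      rw [mem_insert, mem_singleton]
      by_cases h8 : t = x
      · exact Or.inl h8
      · exact Or.inr (hcon t ht h8)
    have h8 := card_le_card h7
    have h9 := card_insert_le x ({y} : Finset V)
    rw [card_singleton] at h9
    omega
  have hoA := hg'.sub hoB'
  have aox := adj_of_al_one hal hoB' hxB' hox
  have aoy := adj_of_al_one hal hoB' hyB' hoy
  have hob : o ≠ b := by
    rintro rfl
    exact hbB' hoB'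
  obtain ⟨B2, T2, hg2, hxB2, hB2⟩ := exists_good hA hd hxA
  rcases hB2 with hB2 | hB2
  · exact claimD ih hn hA h5 hd hxA hB2
  by_cases hin2 : b ∈ B2 ∨ y ∈ B2
  swap
  · push Not at hin2
    obtain ⟨S, hSB, hS⟩ := claimC ih hstar hn hd' hg2 hB2
    refine ⟨S, D, ?_, Or.inr hS, Or.inr hD⟩
    rw [Finset.disjoint_left]
    intro t ht htD
    rw [hDe, mem_insert, mem_insert, mem_singleton] at htD
    rcases htD with rfl | rfl | rfl
    · exact hin2.1 (hSB ht)
    · exact hxB2 (hSB ht)
    · exact hin2.2 (hSB ht)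
  exfalso
  have hyB2 : y ∈ B2 := by
    rcases hin2 with h | h
    · exact hg2.nbr h (hd b hbA) hxA hxB2 abx hyA (Ne.symm hxy) aby
    · exact h
  have hbB2 : b ∈ B2 := hg2.nbr hyB2 (hd y hyA) hxA hxB2 axy.symm hbA hbx aby.symm
  have hoB2 : o ∈ B2 := hg2.nbr hyB2 (hd y hyA) hxA hxB2 axy.symm hoA hox aoy.symm
  have hbT2 : b ∈ T2 := hg2.mem_T hbB2 hxA hxB2 abx
  have hyT2 : y ∈ T2 := hg2.mem_T hyB2 hxA hxB2 axy.symm
  have hoT2 : o ∈ T2 := hg2.mem_T hoB2 hxA hxB2 aox
  have hT2 : T2 = {b, y, o} := by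
    refine (eq_of_subset_of_card_le ?_ ?_).symm
    · intro t ht
      rw [mem_insert, mem_insert, mem_singleton] at ht
      rcases ht with rfl | rfl | rfl
      · exact hbT2
      · exact hyT2
      · exact hoT2
    · rw [hg2.tcard, card_insert_of_notMem, card_pair (Ne.symm hoy)]
      rw [mem_insert, mem_singleton]
      rintro (h | h)
      · exact hby h
      · exact hob h.symm
  have hNx : nA G A x = {b, y, o} := by
    refine (eq_of_subset_of_card_le ?_ ?_).symm
    · intro t ht
      rw [mem_insert, mem_insert, mem_singleton] at ht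
      rcases ht with rfl | rfl | rfl
      · exact mem_nA.2 ⟨hbA, abx.symm⟩
      · exact mem_nA.2 ⟨hyA, axy⟩
      · exact mem_nA.2 ⟨hoA, aox.symm⟩
    · rw [← hT2, hg2.tcard]
      exact (hd x hxA).le
  have hCsub : insert x B2 ⊆ A := by
    intro t ht
    rcases mem_insert.1 ht with rfl | ht
    · exact hxA
    · exact hg2.sub ht
  have hCne : insert x B2 ≠ A := by
    intro h
    have h7 : (insert x B2).card = B2.card + 1 := card_insert_of_notMem hxB2
    rw [h] at h7
    omega
  obtain ⟨t, ht, htl⟩ := exists_end hA.ind hCsub (insert_nonempty _ _) hCne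
  rcases mem_insert.1 ht with rfl | htB
  · -- the vertex `x`
    have h7 : nA G A t ⊆ nA G (insert t B2) t := by
      intro s hs
      have h8 := hs
      rw [hNx, mem_insert, mem_insert, mem_singleton] at h8
      refine mem_nA.2 ⟨?_, (mem_nA.1 hs).2⟩
      rcases h8 with rfl | rfl | rfl
      · exact mem_insert_of_mem hbB2
      · exact mem_insert_of_mem hyB2
      · exact mem_insert_of_mem hoB2
    have h8 := card_le_card h7
    unfold dg at htl
    omega
  · by_cases htT : t ∈ T2
    · have h7 := hg2.inT t htT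
      have hadj : G.Adj t x := by
        rw [hT2, mem_insert, mem_insert, mem_singleton] at htT
        rcases htT with rfl | rfl | rfl
        · exact abx
        · exact axy.symm
        · exact aox
      have h8 : dg G B2 t < dg G (insert x B2) t :=
        dg_lt (subset_insert _ _) (mem_insert_self _ _) hxB2 hadj
      omega
    · have h7 := hg2.outT t htB htT
      have h8 := dg_mono (G := G) (subset_insert x B2) t
      omega

/-- lifting a structure without the contracted vertex -/
theorem lift1 {A A' S : Finset V} {H : SimpleGraph V} {u : V} {k : ℕ} (hA' : A' ⊆ A)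
    (h3 : ∀ q ∈ A', q ≠ u → dg H A' q = dg G A q)
    (h4 : ∀ p ∈ A', ∀ q ∈ A', p ≠ u → q ≠ u → (H.Adj p q ↔ G.Adj p q))
    (hS : St H A' k S) (hu : u ∉ S) : St G A k S := by
  have hne : ∀ x ∈ S, x ≠ u := by
    rintro x hx rfl
    exact hu hx
  refine ⟨hS.sub.trans hA', hS.card, ?_, ?_⟩
  · intro a ha b hb hab
    exact (h4 a (hS.sub ha) b (hS.sub hb) (hne a ha) (hne b hb)).1 (hS.clq a ha b hb hab)
  · intro x hx
    rw [← h3 x (hS.sub hx) (hne x hx)]
    exact hS.deg x hx

theorem step_two {n : ℕ} (ih : IH V n) (hcon : ContractSt V) {A : Finset V} (hn : A.card = n)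
    (hA : Tight G A) (h5 : 5 ≤ A.card) (h2 : 2 * al G A + 2 ≤ A.card) {x : V} (hx : x ∈ A)
    (hdx : dg G A x = 2) : Two G A := by
  obtain ⟨u, w, huw, hN⟩ := card_eq_two.1 hdx
  obtain ⟨H, h1, ha, hu, hdeg, hadj⟩ := hcon G A hA h5 x hx u w hN huw
  have hux : u ∈ nA G A x := by rw [hN]; simp
  have hwx : w ∈ nA G A x := by rw [hN]; simp
  have huA := nA_sub hux
  have hwA := nA_sub hwx
  have axu := (mem_nA.1 hux).2
  have axw := (mem_nA.1 hwx).2
  have hxw : x ≠ w := axw.ne
  have hxu : x ≠ u := axu.ne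
  set A' := A \ {x, w} with hA'
  have hA'A : A' ⊆ A := sdiff_subset
  have hc : A'.card + 2 = A.card := by
    have h6 : ({x, w} : Finset V) ⊆ A := by
      intro t ht
      rw [mem_insert, mem_singleton] at ht
      rcases ht with rfl | rfl
      · exact hx
      · exact hwA
    have h7 := card_sdiff_add_card_eq_card h6
    rwa [card_pair hxw] at h7
  have huA' : u ∈ A' := by
    rw [hA', mem_sdiff, mem_insert, mem_singleton]
    refine ⟨huA, ?_⟩
    rintro (h | h)
    · exact hxu h.symm
    · exact huw h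
  have hxA' : x ∉ A' := by
    rw [hA', mem_sdiff]
    simp
  have hwA' : w ∉ A' := by
    rw [hA', mem_sdiff]
    simp
  have hd2u := two_le_dg hA.ind (by omega) huA
  have hd2w := two_le_dg hA.ind (by omega) hwA
  -- the pair near the contracted vertex
  have hpair : dg G A u + dg G A w ≤ 5 → ∃ S, St G A 2 S ∧ S ⊆ {x, u, w} := by
    intro hle
    have h6 : ∃ p, (p = u ∨ p = w) ∧ dg G A p = 2 ∧ p ∈ A ∧ G.Adj x p := by
      by_cases h7 : dg G A u = 2
      · exact ⟨u, Or.inl rfl, h7, huA, axu⟩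
      · exact ⟨w, Or.inr rfl, by omega, hwA, axw⟩
    obtain ⟨p, hp, hdp, hpA, axp⟩ := h6
    refine ⟨{x, p}, ⟨?_, card_pair axp.ne, ?_, ?_⟩, ?_⟩
    · intro t ht
      rw [mem_insert, mem_singleton] at ht
      rcases ht with rfl | rfl
      · exact hx
      · exact hpA
    · intro a ha b hb hab
      rw [mem_insert, mem_singleton] at ha hb
      rcases ha with rfl | rfl <;> rcases hb with rfl | rfl
      · exact absurd rfl hab
      · exact axp
      · exact axp.symm
      · exact absurd rfl hab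
    · intro t ht
      rw [mem_insert, mem_singleton] at ht
      rcases ht with rfl | rfl
      · exact hdx
      · exact hdp
    · intro t ht
      rw [mem_insert, mem_singleton] at ht
      rw [mem_insert, mem_insert, mem_singleton]
      rcases ht with rfl | rfl
      · exact Or.inl rfl
      · rcases hp with rfl | rfl
        · exact Or.inr (Or.inl rfl)
        · exact Or.inr (Or.inr rfl)
  have hdisj : ∀ {S T : Finset V}, S ⊆ {x, u, w} → T ⊆ A' → u ∉ T → Disjoint S T := by
    intro S T hS hT huT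
    rw [Finset.disjoint_left]
    intro t ht ht'
    have h6 := hS ht
    rw [mem_insert, mem_insert, mem_singleton] at h6
    rcases h6 with rfl | rfl | rfl
    · exact hxA' (hT ht')
    · exact huT ht'
    · exact hwA' (hT ht')
  have hal1 := al_pos (G := H) (X := A') ⟨u, huA'⟩
  by_cases h6 : 5 ≤ A'.card
  · obtain ⟨S, T, hST, hS, hT⟩ := ih H A' (by omega) h1 h6 (by omega)
    have hlift : ∀ {S : Finset V}, (St H A' 2 S ∨ St H A' 3 S) → u ∉ S →
        (St G A 2 S ∨ St G A 3 S) := by
      intro S hS huS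
      rcases hS with hS | hS
      · exact Or.inl (lift1 hA'A hdeg hadj hS huS)
      · exact Or.inr (lift1 hA'A hdeg hadj hS huS)
    have hsub : ∀ {S : Finset V}, (St H A' 2 S ∨ St H A' 3 S) → S ⊆ A' := by
      intro S hS
      rcases hS with hS | hS
      · exact hS.sub
      · exact hS.sub
    have hle : ∀ {S : Finset V}, (St H A' 2 S ∨ St H A' 3 S) → u ∈ S →
        dg G A u + dg G A w ≤ 5 := by
      intro S hS huS
      rcases hS with hS | hS
      · have := hS.deg u huS
        omega
      · have := hS.deg u huS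
        omega
    by_cases huS : u ∈ S
    · have huT : u ∉ T := fun h => Finset.disjoint_left.1 hST huS h
      obtain ⟨P, hP, hPs⟩ := hpair (hle hS huS)
      exact ⟨P, T, hdisj hPs (hsub hT) huT, Or.inl hP, hlift hT huT⟩
    · by_cases huT : u ∈ T
      · obtain ⟨P, hP, hPs⟩ := hpair (hle hT huT)
        exact ⟨S, P, (hdisj hPs (hsub hS) huS).symm, hlift hS huS, Or.inl hP⟩
      · exact ⟨S, T, hST, hlift hS huS, hlift hT huT⟩
  · have h7 : al H A' ≤ 1 := by omega
    have h8 : A'.card = 4 := by omega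
    have hd3 : ∀ q ∈ A', dg H A' q = 3 := by
      intro q hq
      have := dg_of_al_one h7 hq
      omega
    obtain ⟨P, hP, hPs⟩ := hpair (by
      have := hd3 u huA'
      omega)
    refine ⟨P, A'.erase u, hdisj hPs (erase_subset _ _) (notMem_erase u A'), Or.inl hP,
      Or.inr ?_⟩
    have h9 : St H A' 3 (A'.erase u) := by
      refine ⟨erase_subset _ _, ?_, ?_, ?_⟩
      · rw [card_erase_of_mem huA', h8]
      · intro a ha b hb hab
        exact adj_of_al_one h7 (mem_of_mem_erase ha) (mem_of_mem_erase hb) hab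
      · intro t ht
        exact hd3 t (mem_of_mem_erase ht)
    exact lift1 hA'A hdeg hadj h9 (notMem_erase u A')

theorem two_of (hstar : StarSt V) (hcon : ContractSt V) (A : Finset V) (hA : Tight G A)
    (h5 : 5 ≤ A.card) (h2 : 2 * al G A + 2 ≤ A.card) : Two G A := by
  induction hn : A.card using Nat.strong_induction_on generalizing G A with
  | _ n ih =>
    have ih' : IH V n := fun G' A' h3 h4 h6 h7 => ih A'.card h3 A' h4 h6 h7 rfl
    by_cases hd2 : ∃ x ∈ A, dg G A x = 2
    · obtain ⟨x, hx, hdx⟩ := hd2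
      exact step_two ih' hcon hn hA h5 h2 hx hdx
    push Not at hd2
    have hd : ∀ x ∈ A, 3 ≤ dg G A x := by
      intro x hx
      have h3 := two_le_dg hA.ind (by omega) hx
      have h4 := hd2 x hx
      omega
    by_cases hcub : ∀ x ∈ A, dg G A x = 3
    · exact cubic ih' hstar hn hA h5 hcub
    push Not at hcub
    obtain ⟨v, hv, hdv⟩ := hcub
    have h6 := hd v hv
    obtain ⟨Q, h7, h8, h9⟩ := pieces hA hv
    obtain ⟨B1, hB1, B2, hB2, hne⟩ := one_lt_card.1 (show 1 < Q.card by omega)
    obtain ⟨-, T1, hg1⟩ := h7 B1 hB1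
    obtain ⟨-, T2, hg2⟩ := h7 B2 hB2
    have hdis := h8 B1 hB1 B2 hB2 hne
    have h10 := card_le_card (union_subset hg1.sub hg2.sub)
    rw [card_union_of_disjoint hdis] at h10
    have h11 := hg1.tight.three
    have h12 := hg2.tight.three
    obtain ⟨S1, hS1, hs1⟩ := claimC ih' hstar hn hd hg1 (by omega)
    obtain ⟨S2, hS2, hs2⟩ := claimC ih' hstar hn hd hg2 (by omega)
    exact ⟨S1, S2, Disjoint.mono hS1 hS2 hdis, Or.inr hs1, Or.inr hs2⟩

end Pool.Agent.TwoDens.K3T
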