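import Pool.Agent.K3T.Star
import Pool.Agent.K3T.Ctr
import Pool.Agent.K3T.Main
import Pool.Agent.K3T.LowT

/-!
The structure theorem for the vertex sets with `e = 3 n - 4 α - 2`, and the lower bound for
`M(2 s + i, s + 1)`, `2 s < 3 i`, `i < s`.
-/

open Finset

namespace Pool.Agent.TwoDens.K3T

open Pool.Agent.TwoDens Pool.Agent.TwoDens.TS Pool.Agent.TwoDens.K3K

theorem starSt (V : Type*) [LinearOrder V] : StarSt V :=
  fun _ _ _ _ h _ hz => star h hz

theorem contractSt (V : Type*) [LinearOrder V] : ContractSt V := by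
  intro G A h h5 x hx u w hN huw
  obtain ⟨H, h1, h2, h3, h4, h6⟩ := contract h h5 hx hN huw
  exact ⟨H, h1, h2, h3, h4, fun p _ q _ hp hq => h6 p q hp hq⟩

/-- two disjoint structures in every tight set with `n ≥ 5`, `n ≥ 2 α + 2` -/
theorem two {V : Type*} [LinearOrder V] {G : SimpleGraph V} (A : Finset V) (hA : Tight G A)
    (h5 : 5 ≤ A.card) (h2 : 2 * al G A + 2 ≤ A.card) : Two G A :=
  two_of (starSt V) (contractSt V) A hA h5 h2

/-- `M(2 s + i, s + 1) ≥ (2 s + 3 i - 9) / (2 s + i - 6)` -/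
theorem lower (s i : ℕ) (h : 2 * s < 3 * i) (h2 : i < s) :
    (2 * (s : ℝ) + 3 * i - 9) / (2 * s + i - 6) ≤ minTwoDensity (2 * s + i) (s + 1) :=
  lowerT s i h h2 (fun _ A hA h5 h3 => two A hA h5 h3)

end Pool.Agent.TwoDens.K3T
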