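import Pool.Agent.K3T.Defs

/-!
Deleting a vertex of degree `D` from a tight set leaves at least `D - 2` good parts.
-/

open Finset

namespace Pool.Agent.TwoDens.K3T

open Pool.Agent.TwoDens Pool.Agent.TwoDens.TS Pool.Agent.TwoDens.K3K

variable {V : Type*} [LinearOrder V] {G : SimpleGraph V}

theorem nA_eq_of_dg {A B : Finset V} (hB : B ⊆ A) {x : V} (h : dg G A x = dg G B x) :
    nA G A x = nA G B x := (eq_of_subset_of_card_le (nA_mono hB x) h.le).symm

/-- the vertices of `B` with a neighbour in `A` outside `B` -/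
noncomputable def ends (G : SimpleGraph V) (A B : Finset V) : Finset V :=
  B.filter (fun x => dg G B x < dg G A x)

theorem mem_ends {A B : Finset V} {x : V} : x ∈ ends G A B ↔ x ∈ B ∧ dg G B x < dg G A x := by
  unfold ends
  rw [mem_filter]

theorem ends_tr {A B : Finset V} (hA : Ind G A) (hB : B ⊆ A) (hBn : B.Nonempty) (hne : B ≠ A) :
    al G (B \ ends G A B) < al G B := by
  by_contra hcon
  push Not at hcon
  have h1 := hA.2 B hB hBn hne
  obtain ⟨S, hS, hSi, hSc⟩ := exists_al (G := G) (B \ ends G A B)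
  obtain ⟨I, hI, hIi, hIc⟩ := exists_al (G := G) (A \ B)
  have hSB : S ⊆ B := hS.trans sdiff_subset
  have hno : ∀ x ∈ S, ∀ y ∈ I, ¬ G.Adj x y := by
    intro x hx y hy hadj
    have h2 := mem_sdiff.1 (hS hx)
    have h3 := mem_sdiff.1 (hI hy)
    have h4 : dg G A x = dg G B x := by
      have h5 := dg_mono (G := G) hB x
      by_contra h6
      exact h2.2 (mem_ends.2 ⟨h2.1, lt_of_le_of_ne h5 (Ne.symm h6)⟩)
    have h5 : y ∈ nA G A x := mem_nA.2 ⟨h3.1, hadj⟩
    rw [nA_eq_of_dg hB h4] at h5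
    exact h3.2 (nA_sub h5)
  have hdisj : Disjoint S I := by
    rw [Finset.disjoint_left]
    intro x hx hy
    exact (mem_sdiff.1 (hI hy)).2 (hSB hx)
  have h2 := le_al (G := G) (X := A) (I := S ∪ I) (union_subset (hSB.trans hB)
    (hI.trans sdiff_subset)) (indep_union hSi hIi hno)
  rw [card_union_of_disjoint hdisj] at h2
  omega

theorem two_le_of_cap {B : Finset V} (hB : Ind G B) (h : cap G B = 2) : 3 ≤ B.card := by
  classical
  by_contra hcon
  push Not at hcon
  have h0 := hB.1.card_pos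
  have h1 : B.card = 1 ∨ B.card = 2 := by omega
  rcases h1 with h1 | h1
  · unfold cap at h
    rw [if_pos (by omega)] at h
    omega
  · obtain ⟨x, y, hxy, hxB⟩ := card_eq_two.1 h1
    unfold cap at h
    rw [if_neg (by omega), if_pos] at h
    · omega
    · refine ⟨x, by rw [hxB]; simp, y, by rw [hxB]; simp, hxy, ?_⟩
      rw [hxB, sdiff_self]
      have h2 := al_pos (G := G) hB.1
      rw [hxB] at h2
      have h3 := al_empty (G := G)
      rw [bot_eq_empty, h3]
      exact h2

theorem card_ends {A B : Finset V} (hA : Ind G A) (hB : B ⊆ A) (hBi : Ind G B) (hne : B ≠ A) :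
    cap G B + 1 ≤ (ends G A B).card := by
  by_contra hcon
  push Not at hcon
  have h1 := ends_tr hA hB hBi.1 hne
  have h2 := hBi.avoid (T := ends G A B) (filter_subset _ _) (by omega)
  omega

theorem ends_le {A B : Finset V} :
    (ends G A B).card ≤ ∑ x ∈ B, (dg G A x - dg G B x) := by
  rw [card_eq_sum_ones]
  unfold ends
  rw [sum_filter]
  refine sum_le_sum fun x _ => ?_
  split_ifs with h
  · omega
  · exact Nat.zero_le _

theorem sum_dg {A B : Finset V} (hB : B ⊆ A) :
    ∑ x ∈ B, dg G A x = ee G B + ∑ x ∈ B, (dg G A x - dg G B x) := by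
  unfold ee
  rw [← sum_add_distrib]
  refine sum_congr rfl fun x _ => ?_
  have := dg_mono (G := G) hB x
  omega

/-- a part with three leaving edges and equality in the edge inequality is good -/
theorem good_of {A B : Finset V} (hA : Ind G A) (hB : B ⊆ A) (hBi : Ind G B) (hne : B ≠ A)
    (h1 : cap G B = 2) (h2 : ∑ x ∈ B, (dg G A x - dg G B x) ≤ 3)
    (h3 : 6 * B.card = ee G B + 4 + 8 * al G B) : Good G A B (ends G A B) := by
  have h4 := card_ends hA hB hBi hne
  have h5 := ends_le (G := G) (A := A) (B := B)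
  have hT : ends G A B ⊆ B := filter_subset _ _
  have h6 : ∑ x ∈ ends G A B, (dg G A x - dg G B x) ≤ ∑ x ∈ B, (dg G A x - dg G B x) :=
    sum_le_sum_of_subset hT
  refine ⟨hB, ⟨hBi, two_le_of_cap hBi h1, by omega⟩, hT, by omega, ?_, ?_,
    ends_tr hA hB hBi.1 hne⟩
  · intro x hx
    have h7 := (mem_ends.1 hx).2
    by_contra hcon
    have h8 : 2 ≤ dg G A x - dg G B x := by omega
    have h9 : ∑ y ∈ ends G A B, 1 < ∑ y ∈ ends G A B, (dg G A y - dg G B y) := by
      refine sum_lt_sum (fun y hy => ?_) ⟨x, hx, by omega⟩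
      have := (mem_ends.1 hy).2
      omega
    rw [← card_eq_sum_ones] at h9
    omega
  · intro x hx hxT
    have h7 := dg_mono (G := G) hB x
    by_contra hcon
    exact hxT (mem_ends.2 ⟨hx, by omega⟩)

/-- deleting a vertex of degree `D` leaves at least `D - 2` good parts -/
theorem pieces {A : Finset V} (h : Tight G A) {v : V} (hv : v ∈ A) :
    ∃ Q : Finset (Finset V), (∀ B ∈ Q, v ∉ B ∧ ∃ T, Good G A B T) ∧
      (∀ B ∈ Q, ∀ C ∈ Q, B ≠ C → Disjoint B C) ∧ dg G A v ≤ Q.card + 2 := by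
  classical
  have h3 := h.three
  have hal : al G (A \ {v}) = al G A := h.ind.av1 (by omega) hv
  obtain ⟨P, hP⟩ := exists_dec (G := G) (A \ {v})
  have hsub : ∀ B ∈ P, B ⊆ A := fun B hB => (hP.sub hB).trans sdiff_subset
  have hvB : ∀ B ∈ P, v ∉ B := fun B hB hvB => (mem_sdiff.1 (hP.sub hB hvB)).2 (by simp)
  have hne : ∀ B ∈ P, B ≠ A := fun B hB hBA => hvB B hB (by rw [hBA]; exact hv)
  refine ⟨P.filter (fun B => ∃ T, Good G A B T), ?_, ?_, ?_⟩
  · intro B hB
    rw [mem_filter] at hB
    exact ⟨hvB B hB.1, hB.2⟩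
  · intro B hB C hC hBC
    rw [mem_filter] at hB hC
    exact hP.disj B hB.1 C hC.1 hBC
  have key : ∀ B ∈ P, 6 * B.card ≤ ∑ x ∈ B, dg G A x + 8 * al G B +
      (if ∃ T, Good G A B T then 1 else 0) := by
    intro B hB
    have hBi := hP.ind B hB
    have h4 := ind_ineq hBi
    have h5 := card_ends h.ind (hsub B hB) hBi (hne B hB)
    have h6 := ends_le (G := G) (A := A) (B := B)
    have h7 := cap_le (G := G) B
    rw [sum_dg (hsub B hB)]
    by_cases hc : cap G B = 2 ∧ ∑ x ∈ B, (dg G A x - dg G B x) ≤ 3 ∧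
        6 * B.card = ee G B + 4 + 8 * al G B
    · rw [if_pos ⟨_, good_of h.ind (hsub B hB) hBi (hne B hB) hc.1 hc.2.1 hc.2.2⟩]
      omega
    · have h8 : 6 * B.card ≤ ee G B + ∑ x ∈ B, (dg G A x - dg G B x) + 8 * al G B := by
        by_contra hcon
        apply hc
        refine ⟨by omega, by omega, by omega⟩
      omega
  have h4 := sum_le_sum key
  rw [sum_add_distrib, sum_add_distrib, ← mul_sum, ← mul_sum, hP.sum, hal, ← card_filter] at h4
  have h5 : ∑ B ∈ P, B.card = (A \ {v}).card := by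
    have h6 := card_biUnion (s := P) (t := id) (fun q hq r hr hne => hP.disj q hq r hr hne)
    rw [hP.un] at h6
    rw [h6]
    rfl
  have h6 : ∑ B ∈ P, ∑ x ∈ B, dg G A x = ∑ x ∈ A \ {v}, dg G A x := by
    rw [← hP.un, sum_biUnion]
    · rfl
    · intro q hq r hr hne
      exact hP.disj q hq r hr hne
  have h7 : ee G A = ∑ x ∈ A \ {v}, dg G A x + dg G A v := by
    unfold ee
    rw [← sum_sdiff (singleton_subset_iff.2 hv), sum_singleton]
  have h8 := card_sdiff_add_card_eq_card (singleton_subset_iff.2 hv)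
  rw [card_singleton] at h8
  have h9 := h.eq
  omega

end Pool.Agent.TwoDens.K3T
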