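import Pool.Agent.K3T.Defs

/-!
A good part with a new vertex joined to its three ends is tight.
-/

open Finset

namespace Pool.Agent.TwoDens.K3T

open Pool.Agent.TwoDens Pool.Agent.TwoDens.TS Pool.Agent.TwoDens.K3K

variable {V : Type*} [LinearOrder V] {G : SimpleGraph V}

theorem al_congr {H : SimpleGraph V} {C : Finset V}
    (h : ∀ x ∈ C, ∀ y ∈ C, (H.Adj x y ↔ G.Adj x y)) : al H C = al G C := by
  refine le_antisymm ?_ ?_
  · refine al_le fun I hI hIi => le_al hI ?_
    intro x hx y hy hxy hadj
    exact hIi hx hy hxy ((h x (hI (mem_coe.1 hx)) y (hI (mem_coe.1 hy))).2 hadj)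
  · refine al_le fun I hI hIi => le_al hI ?_
    intro x hx y hy hxy hadj
    exact hIi hx hy hxy ((h x (hI (mem_coe.1 hx)) y (hI (mem_coe.1 hy))).1 hadj)

/-- the part `B` with the new vertex `z` joined to `T` -/
def starG (G : SimpleGraph V) (B T : Finset V) (z : V) (hz : z ∉ T) : SimpleGraph V where
  Adj x y := (x ∈ B ∧ y ∈ B ∧ G.Adj x y) ∨ (x = z ∧ y ∈ T) ∨ (y = z ∧ x ∈ T)
  symm := ⟨fun x y h => by
    rcases h with ⟨h1, h2, h3⟩ | ⟨h1, h2⟩ | ⟨h1, h2⟩
    · exact Or.inl ⟨h2, h1, h3.symm⟩
    · exact Or.inr (Or.inr ⟨h1, h2⟩)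
    · exact Or.inr (Or.inl ⟨h1, h2⟩)⟩
  loopless := ⟨fun x h => by
    rcases h with ⟨_, _, h3⟩ | ⟨h1, h2⟩ | ⟨h1, h2⟩
    · exact h3.ne rfl
    · exact hz (h1 ▸ h2)
    · exact hz (h1 ▸ h2)⟩

theorem star {A B T : Finset V} (h : Good G A B T) {z : V} (hz : z ∉ B) :
    ∃ H : SimpleGraph V, Tight H (insert z B) ∧
      (∀ x ∈ B, dg H (insert z B) x = dg G A x) ∧ dg H (insert z B) z = 3 ∧
      (∀ x ∈ B, ∀ y ∈ B, (H.Adj x y ↔ G.Adj x y)) ∧ ∀ x ∈ B, (H.Adj z x ↔ x ∈ T) := by
  classical
  have hzT : z ∉ T := fun hc => hz (h.tsub hc)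
  set H := starG G B T z hzT with hH
  have hadj : ∀ x y, H.Adj x y ↔
      (x ∈ B ∧ y ∈ B ∧ G.Adj x y) ∨ (x = z ∧ y ∈ T) ∨ (y = z ∧ x ∈ T) := fun _ _ => Iff.rfl
  have hB : ∀ x ∈ B, ∀ y ∈ B, (H.Adj x y ↔ G.Adj x y) := by
    intro x hx y hy
    rw [hadj]
    constructor
    · rintro (⟨_, _, h3⟩ | ⟨h1, _⟩ | ⟨h1, _⟩)
      · exact h3
      · exact absurd (h1 ▸ hx) hz
      · exact absurd (h1 ▸ hy) hz
    · intro h3
      exact Or.inl ⟨hx, hy, h3⟩
  have hzx : ∀ x ∈ B, (H.Adj z x ↔ x ∈ T) := by
    intro x hx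
    rw [hadj]
    constructor
    · rintro (⟨h1, _, _⟩ | ⟨_, h2⟩ | ⟨h1, _⟩)
      · exact absurd h1 hz
      · exact h2
      · exact absurd (h1 ▸ hx) hz
    · intro h3
      exact Or.inr (Or.inl ⟨rfl, h3⟩)
  have hxz : ∀ x ∈ B, (H.Adj x z ↔ x ∈ T) := by
    intro x hx
    rw [← hzx x hx]
    exact ⟨fun hh => hh.symm, fun hh => hh.symm⟩
  have hnz : nA H (insert z B) z = T := by
    ext y
    rw [mem_nA, mem_insert]
    constructor
    · rintro ⟨h1 | h1, h2⟩
      · exact absurd h1.symm h2.ne
      · exact (hzx y h1).1 h2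
    · intro h1
      exact ⟨Or.inr (h.tsub h1), (hzx y (h.tsub h1)).2 h1⟩
  have hdz : dg H (insert z B) z = 3 := by
    unfold dg
    rw [hnz, h.tcard]
  have hdx : ∀ x ∈ B, dg H (insert z B) x = dg G B x + if x ∈ T then 1 else 0 := by
    intro x hx
    by_cases hxT : x ∈ T
    · rw [if_pos hxT]
      have h1 : nA H (insert z B) x = insert z (nA G B x) := by
        ext y
        rw [mem_nA, mem_insert, mem_insert, mem_nA]
        constructor
        · rintro ⟨h1 | h1, h2⟩
          · exact Or.inl h1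
          · exact Or.inr ⟨h1, (hB x hx y h1).1 h2⟩
        · rintro (h1 | ⟨h1, h2⟩)
          · subst h1
            exact ⟨Or.inl rfl, (hxz x hx).2 hxT⟩
          · exact ⟨Or.inr h1, (hB x hx y h1).2 h2⟩
      unfold dg
      rw [h1, card_insert_of_notMem]
      intro hc
      exact hz (nA_sub hc)
    · rw [if_neg hxT]
      have h1 : nA H (insert z B) x = nA G B x := by
        ext y
        rw [mem_nA, mem_insert, mem_nA]
        constructor
        · rintro ⟨h1 | h1, h2⟩
          · subst h1
            exact absurd ((hxz x hx).1 h2) hxT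
          · exact ⟨h1, (hB x hx y h1).1 h2⟩
        · rintro ⟨h1, h2⟩
          exact ⟨Or.inr h1, (hB x hx y h1).2 h2⟩
      unfold dg
      rw [h1, Nat.add_zero]
  have hdx' : ∀ x ∈ B, dg H (insert z B) x = dg G A x := by
    intro x hx
    rw [hdx x hx]
    by_cases hxT : x ∈ T
    · rw [if_pos hxT, h.inT x hxT]
    · rw [if_neg hxT, h.outT x hx hxT, Nat.add_zero]
  have halC : ∀ C ⊆ B, al H C = al G C := fun C hC =>
    al_congr (fun x hx y hy => hB x (hC hx) y (hC hy))
  have hBz : B ⊆ insert z B := subset_insert z B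
  have hal : al H (insert z B) = al G B := by
    refine le_antisymm ?_ ?_
    · refine al_le fun I hI hIi => ?_
      by_cases hzI : z ∈ I
      · have h1 : I.erase z ⊆ B \ T := by
          intro x hx
          rw [mem_erase] at hx
          have hxB : x ∈ B := by
            rcases mem_insert.1 (hI hx.2) with h1 | h1
            · exact absurd h1 hx.1
            · exact h1
          rw [mem_sdiff]
          refine ⟨hxB, fun hxT => ?_⟩
          exact hIi (mem_coe.2 hzI) (mem_coe.2 hx.2) (Ne.symm hx.1) ((hzx x hxB).2 hxT)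
        have h2 : (I.erase z).card ≤ al G (B \ T) := by
          refine le_al h1 ?_
          intro x hx y hy hxy hxy'
          have hx' := mem_coe.1 hx
          have hy' := mem_coe.1 hy
          exact hIi (mem_coe.2 (mem_erase.1 hx').2) (mem_coe.2 (mem_erase.1 hy').2) hxy
            ((hB x (mem_sdiff.1 (h1 hx')).1 y (mem_sdiff.1 (h1 hy')).1).2 hxy')
        have h3 := card_erase_add_one hzI
        have h4 := h.tr
        omega
      · have h1 : I ⊆ B := by
          intro x hx
          rcases mem_insert.1 (hI hx) with h1 | h1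
          · exact absurd (h1 ▸ hx) hzI
          · exact h1
        have h2 := le_al (G := H) h1 hIi
        rw [halC B Subset.rfl] at h2
        exact h2
    · rw [← halC B Subset.rfl]
      exact al_mono hBz
  have hcard : (insert z B).card = B.card + 1 := card_insert_of_notMem hz
  refine ⟨H, ⟨⟨insert_nonempty z B, ?_⟩, ?_, ?_⟩, hdx', hdz, hB, hzx⟩
  · intro C hC hCn hCne
    rw [hal]
    by_cases h1 : C ∩ B = ∅
    · have h2 : C = {z} := by
        refine eq_singleton_iff_unique_mem.2 ?_
        have h3 : ∀ x ∈ C, x = z := by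
          intro x hx
          rcases mem_insert.1 (hC hx) with h4 | h4
          · exact h4
          · have h5 : x ∈ C ∩ B := mem_inter.2 ⟨hx, h4⟩
            rw [h1] at h5
            exact absurd h5 (notMem_empty x)
        obtain ⟨x, hx⟩ := hCn
        exact ⟨h3 x hx ▸ hx, h3⟩
      subst h2
      have h3 : al H {z} = 1 := al_singleton z
      have h4 : B ⊆ insert z B \ {z} := by
        intro x hx
        rw [mem_sdiff, mem_singleton]
        exact ⟨hBz hx, fun hc => hz (hc ▸ hx)⟩
      have h5 := al_mono (G := H) h4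
      rw [halC B Subset.rfl] at h5
      omega
    · by_cases h2 : C ∩ B = B
      · have h3 : B ⊆ C := inter_eq_right.1 h2
        have hzC : z ∉ C := by
          intro hc
          refine hCne (Subset.antisymm hC ?_)
          intro x hx
          rcases mem_insert.1 hx with h4 | h4
          · exact h4 ▸ hc
          · exact h3 h4
        have h4 := al_mono (G := H) h3
        rw [halC B Subset.rfl] at h4
        have h5 : (insert z B \ C).Nonempty :=
          ⟨z, mem_sdiff.2 ⟨mem_insert_self z B, hzC⟩⟩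
        have h6 := al_pos (G := H) h5
        omega
      · have h3 := h.tight.ind.2 (C ∩ B) inter_subset_right (nonempty_iff_ne_empty.2 h1) h2
        have h4 : al G (C ∩ B) ≤ al H C := by
          rw [← halC (C ∩ B) inter_subset_right]
          exact al_mono inter_subset_left
        have h5 : al G (B \ (C ∩ B)) ≤ al H (insert z B \ C) := by
          rw [← halC (B \ (C ∩ B)) sdiff_subset]
          refine al_mono ?_
          intro x hx
          rw [mem_sdiff, mem_inter] at hx
          rw [mem_sdiff]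
          exact ⟨hBz hx.1, fun hc => hx.2 ⟨hc, hx.1⟩⟩
        omega
  · have := h.tight.three
    omega
  · have h1 : ee H (insert z B) = ee G B + 6 := by
      unfold ee
      rw [sum_insert hz, hdz, sum_congr rfl hdx, sum_add_distrib, ← card_filter]
      have h2 : B.filter (fun x => x ∈ T) = T := by
        rw [filter_mem_eq_inter]
        exact inter_eq_right.2 h.tsub
      rw [h2, h.tcard]
      ring
    have h2 := h.tight.eq
    rw [h1, hal, hcard]
    omega

end Pool.Agent.TwoDens.K3T
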